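import Pool.Agent.Lib.MP_602b76_co_Two.Main
import Pool.Agent.Lib.MP_602b76_co_Never.Defs

/-!
# Two generators in dimension one: the classification
-/

namespace Pool.Agent.Lib.MP_602b76_co_Two

open Finset Pool.Agent.Lib.MP_602b76_co_Never

/-- The identification of `ℤ^1` with `ℤ`. -/
def phi : (Fin 1 → ℤ) ≃ ℤ := Equiv.funUnique (Fin 1) ℤ

theorem phi_apply (x : Fin 1 → ℤ) : phi x = x 0 := rfl

theorem phi_add (x y : Fin 1 → ℤ) : phi (x + y) = phi x + phi y := rfl

theorem phi_neg (x : Fin 1 → ℤ) : phi (-x) = -phi x := rfl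

theorem mem_map_phi {S : Finset (Fin 1 → ℤ)} {x : Fin 1 → ℤ} :
    phi x ∈ S.map phi.toEmbedding ↔ x ∈ S := by
  rw [← Equiv.coe_toEmbedding phi, Finset.mem_map' phi.toEmbedding]

theorem edgeBoundary_eq (U S : Finset (Fin 1 → ℤ)) :
    edgeBoundary U S = bd (U.map phi.toEmbedding) (S.map phi.toEmbedding) := by
  unfold edgeBoundary bd
  have hU : (U.map phi.toEmbedding) ∪ (U.map phi.toEmbedding).image (fun u => -u) =
      (U ∪ U.image (fun u => -u)).map phi.toEmbedding := by
    rw [Finset.map_union]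
    congr 1
    ext x
    simp only [mem_image, mem_map, Equiv.coe_toEmbedding]
    constructor
    · rintro ⟨_, ⟨y, hy, rfl⟩, rfl⟩
      exact ⟨-y, ⟨y, hy, rfl⟩, phi_neg y⟩
    · rintro ⟨_, ⟨y, hy, rfl⟩, rfl⟩
      exact ⟨phi y, ⟨y, hy, rfl⟩, (phi_neg y).symm⟩
  rw [hU]
  symm
  apply Finset.card_bij' (fun p _ => (phi.symm p.1, phi.symm p.2)) (fun p _ => (phi p.1, phi p.2))
  · rintro ⟨x, u⟩ h
    obtain ⟨x, rfl⟩ := phi.surjective x
    obtain ⟨u, rfl⟩ := phi.surjective u
    simp only [mem_filter, mem_product, mem_map_phi, ← phi_add] at h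
    simpa only [mem_filter, mem_product, Equiv.symm_apply_apply] using h
  · rintro ⟨x, u⟩ h
    simp only [mem_filter, mem_product] at h
    simpa only [mem_filter, mem_product, mem_map_phi, ← phi_add] using h
  · rintro ⟨x, u⟩ _
    simp
  · rintro ⟨x, u⟩ _
    simp

theorem card_map_phi (S : Finset (Fin 1 → ℤ)) : (S.map phi.toEmbedding).card = S.card :=
  card_map _

theorem exists_map_phi (T : Finset ℤ) : ∃ S : Finset (Fin 1 → ℤ), S.map phi.toEmbedding = T := by
  refine ⟨T.map phi.symm.toEmbedding, ?_⟩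
  ext x
  simp

theorem optimal_iff_bd (U S : Finset (Fin 1 → ℤ)) :
    EdgeOptimal U S ↔ ∀ T : Finset ℤ, T.card = (S.map phi.toEmbedding).card →
      bd (U.map phi.toEmbedding) (S.map phi.toEmbedding) ≤ bd (U.map phi.toEmbedding) T := by
  unfold EdgeOptimal
  constructor
  · intro h T hT
    obtain ⟨S', rfl⟩ := exists_map_phi T
    rw [card_map_phi, card_map_phi] at hT
    have := h S' hT
    rwa [edgeBoundary_eq, edgeBoundary_eq] at this
  · intro h S' hS'
    rw [edgeBoundary_eq, edgeBoundary_eq]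
    apply h
    rw [card_map_phi, card_map_phi, hS']

/-- The symmetric set of a pair of generators. -/
theorem symm_pair {U : Finset ℤ} {u v : ℤ} (hU : U = {u, v}) :
    U ∪ U.image (fun u => -u) =
      {(u.natAbs : ℤ), -(u.natAbs : ℤ), (v.natAbs : ℤ), -(v.natAbs : ℤ)} := by
  subst hU
  ext x
  simp only [mem_union, mem_image, mem_insert, mem_singleton]
  constructor
  · rintro ((h | h) | ⟨y, (h | h), h'⟩) <;> omega
  · intro h
    by_cases c1 : x = u ∨ x = v
    · exact Or.inl c1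
    · right
      by_cases c2 : x = -u
      · exact ⟨u, Or.inl rfl, c2.symm⟩
      · exact ⟨v, Or.inr rfl, by omega⟩

theorem map_pair (x y : Fin 1 → ℤ) :
    ({x, y} : Finset (Fin 1 → ℤ)).map phi.toEmbedding = {x 0, y 0} := by
  rw [Finset.map_insert, Finset.map_singleton]
  rfl

/-- The pair of generators behind a generating set with at most two elements. -/
theorem exists_pair {U : Finset (Fin 1 → ℤ)} (hc : U.card ≤ 2) (h0 : (0 : Fin 1 → ℤ) ∉ U)
    (hgen : AddSubgroup.closure (U : Set (Fin 1 → ℤ)) = ⊤) :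
    ∃ x y : Fin 1 → ℤ, U = {x, y} ∧ (x 0).natAbs ≤ (y 0).natAbs ∧ 0 < (x 0).natAbs ∧
      Nat.Coprime (x 0).natAbs (y 0).natAbs := by
  have hex : ∃ x y : Fin 1 → ℤ, U = {x, y} := by
    have hne : U.Nonempty := by
      rw [Finset.nonempty_iff_ne_empty]
      intro h
      rw [h, coe_empty, AddSubgroup.closure_empty] at hgen
      have : (fun _ => 1 : Fin 1 → ℤ) ∈ (⊤ : AddSubgroup (Fin 1 → ℤ)) := AddSubgroup.mem_top _
      rw [← hgen, AddSubgroup.mem_bot] at this
      have := congrFun this 0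
      simp at this
    have hpos := hne.card_pos
    obtain h | h : U.card = 1 ∨ U.card = 2 := by omega
    · obtain ⟨x, hx⟩ := Finset.card_eq_one.1 h
      exact ⟨x, x, by rw [hx]; simp⟩
    · obtain ⟨x, y, _, hxy⟩ := Finset.card_eq_two.1 h
      exact ⟨x, y, hxy⟩
  have key : ∀ x y : Fin 1 → ℤ, U = {x, y} → 0 < (x 0).natAbs ∧
      Nat.Coprime (x 0).natAbs (y 0).natAbs := by
    intro x y hxy
    constructor
    · rw [Int.natAbs_pos]
      intro hx
      apply h0
      rw [hxy]
      have : x = 0 := by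
        funext i
        rw [Fin.fin_one_eq_zero i]
        exact hx
      rw [this]
      exact mem_insert_self _ _
    · rw [hxy, coe_pair] at hgen
      have : (fun _ => 1 : Fin 1 → ℤ) ∈ AddSubgroup.closure ({x, y} : Set (Fin 1 → ℤ)) := by
        rw [hgen]; exact AddSubgroup.mem_top _
      rw [AddSubgroup.mem_closure_pair] at this
      obtain ⟨m, n, hmn⟩ := this
      have h1 := congrFun hmn 0
      simp only [Pi.add_apply, Pi.smul_apply, smul_eq_mul] at h1
      have h2 : IsCoprime (x 0) (y 0) := ⟨m, n, h1⟩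
      exact Int.isCoprime_iff_gcd_eq_one.1 h2
  obtain ⟨x, y, hxy⟩ := hex
  by_cases hle : (x 0).natAbs ≤ (y 0).natAbs
  · obtain ⟨h1, h2⟩ := key x y hxy
    exact ⟨x, y, hxy, hle, h1, h2⟩
  · have hyx : U = {y, x} := by rw [hxy, pair_comm]
    obtain ⟨h1, h2⟩ := key y x hyx
    exact ⟨y, x, hyx, by omega, h1, h2⟩

/-- Optimality in terms of chains. -/
theorem optimal_iff_TOpt {U : Finset (Fin 1 → ℤ)} {x y : Fin 1 → ℤ} (hU : U = {x, y})
    (hx : 0 < (x 0).natAbs) (hxy : (x 0).natAbs < (y 0).natAbs) (S : Finset (Fin 1 → ℤ)) :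
    EdgeOptimal U S ↔ TOpt (x 0).natAbs (y 0).natAbs (S.map phi.toEmbedding) := by
  rw [optimal_iff_bd]
  have hs := symm_pair (U := U.map phi.toEmbedding) (u := x 0) (v := y 0) (by rw [hU, map_pair])
  have hbd := fun T => bd_eq (a := ((x 0).natAbs : ℤ)) (b := ((y 0).natAbs : ℤ))
    (by exact_mod_cast hx) (by exact_mod_cast hxy) hs T
  unfold TOpt
  constructor
  · intro h T hT
    have := h T hT
    rw [hbd, hbd] at this
    omega
  · intro h T hT
    have := h T hT
    rw [hbd, hbd]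
    omega

/-- Enumerations of `ℤ^1` and of `ℤ`. -/
theorem map_image_range (e : ℕ ≃ (Fin 1 → ℤ)) (n : ℕ) :
    ((range n).image e).map phi.toEmbedding = (range n).image (e.trans phi) := by
  ext z
  simp only [mem_map, mem_image, Equiv.coe_toEmbedding, Equiv.trans_apply]
  constructor
  · rintro ⟨_, ⟨k, hk, rfl⟩, rfl⟩
    exact ⟨k, hk, rfl⟩
  · rintro ⟨k, hk, rfl⟩
    exact ⟨_, ⟨k, hk, rfl⟩, rfl⟩

theorem one_le_ch {S : Finset ℤ} (h : S.Nonempty) : 1 ≤ ch 1 S := by
  obtain ⟨z, hz, hmax⟩ := Finset.exists_max_image S (fun x => x) h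
  have : z ∈ S.filter (fun x => x + 1 ∉ S) := by
    rw [mem_filter]
    refine ⟨hz, fun h' => ?_⟩
    have := hmax _ h'
    omega
  exact Finset.card_pos.2 ⟨z, this⟩

/-- The path: one generator. -/
theorem path_nested : ∃ e : ℕ ≃ ℤ, ∀ n, ∀ T : Finset ℤ, T.card = ((range n).image e).card →
    ch 1 ((range n).image e) ≤ ch 1 T := by
  obtain ⟨e, he⟩ := enum_of_chain (grow 0 0) (by unfold grow; simp)
    (grow_step 0 0 le_rfl) (grow_cover 0 0)
  refine ⟨e, fun n T hT => ?_⟩
  rw [he] at hT ⊢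
  by_cases hT0 : T.Nonempty
  · refine le_trans ?_ (one_le_ch hT0)
    exact ch_Ico_le 1 _ _
  · rw [Finset.not_nonempty_iff_eq_empty] at hT0
    rw [hT0, card_empty] at hT
    rw [Finset.card_eq_zero.1 hT.symm]
    simp [ch]

/-- **Classification** in dimension one with at most two generators. -/
theorem nested_iff {U : Finset (Fin 1 → ℤ)} (hc : U.card ≤ 2) (h0 : (0 : Fin 1 → ℤ) ∉ U)
    (hgen : AddSubgroup.closure (U : Set (Fin 1 → ℤ)) = ⊤) :
    (∃ e : ℕ ≃ (Fin 1 → ℤ), ∀ n, EdgeOptimal U ((range n).image e)) ↔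
      ∀ u ∈ U, ∀ v ∈ U, |v 0| ≤ |u 0| + 4 := by
  obtain ⟨x, y, hU, hle, hpos, hco⟩ := exists_pair hc h0 hgen
  rcases Nat.lt_or_eq_of_le hle with hlt | heq
  · constructor
    · rintro ⟨e, he⟩
      by_contra hcon
      have hfar : (x 0).natAbs + 5 ≤ (y 0).natAbs := by
        by_contra hnear
        apply hcon
        intro u hu v hv
        rw [hU, mem_insert, mem_singleton] at hu hv
        rw [Int.abs_eq_natAbs, Int.abs_eq_natAbs]
        rcases hu with rfl | rfl <;> rcases hv with rfl | rfl <;> omega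
      obtain ⟨n, _, hn⟩ := not_nested hpos hfar hco (e.trans phi)
      apply hn
      rw [← map_image_range, ← optimal_iff_TOpt hU hpos hlt]
      exact he n
    · intro h
      have hnear : (y 0).natAbs ≤ (x 0).natAbs + 4 := by
        have := h x (by rw [hU]; simp) y (by rw [hU]; simp)
        rw [Int.abs_eq_natAbs, Int.abs_eq_natAbs] at this
        omega
      obtain ⟨e, he⟩ := exists_nested hpos hlt hnear hco
      refine ⟨e.trans phi.symm, fun n => ?_⟩
      rw [optimal_iff_TOpt hU hpos hlt, map_image_range]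
      have : (e.trans phi.symm).trans phi = e := by
        ext z
        simp
      rw [this]
      exact he n
  · have hx1 : (x 0).natAbs = 1 := by
      rw [← heq, Nat.coprime_self] at hco
      exact hco
    have hy1 : (y 0).natAbs = 1 := by omega
    constructor
    · intro _ u hu v hv
      rw [hU, mem_insert, mem_singleton] at hu hv
      rw [Int.abs_eq_natAbs, Int.abs_eq_natAbs]
      rcases hu with rfl | rfl <;> rcases hv with rfl | rfl <;> omega
    · intro _
      obtain ⟨e, he⟩ := path_nested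
      refine ⟨e.trans phi.symm, fun n => ?_⟩
      rw [optimal_iff_bd, map_image_range]
      have : (e.trans phi.symm).trans phi = e := by
        ext z
        simp
      rw [this]
      intro T hT
      have hs := symm_pair (U := U.map phi.toEmbedding) (u := x 0) (v := y 0)
        (by rw [hU, map_pair])
      rw [hx1, hy1] at hs
      have hs' : (U.map phi.toEmbedding) ∪ (U.map phi.toEmbedding).image (fun u => -u) =
          {1, -1} := by
        rw [hs]
        decide
      rw [bd_eq_one hs', bd_eq_one hs']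
      have := he n T hT
      omega

/-- **Quantitative negative part.** -/
theorem not_nested_bound {U : Finset (Fin 1 → ℤ)} (hc : U.card ≤ 2)
    (h0 : (0 : Fin 1 → ℤ) ∉ U) (hgen : AddSubgroup.closure (U : Set (Fin 1 → ℤ)) = ⊤)
    {u v : Fin 1 → ℤ} (hu : u ∈ U) (hv : v ∈ U) (huv : |u 0| + 5 ≤ |v 0|)
    (e : ℕ ≃ (Fin 1 → ℤ)) :
    ∃ n : ℕ, 4 * (n : ℤ) ≤ (|u 0| + |v 0|) ^ 2 + 4 ∧ ¬ EdgeOptimal U ((range n).image e) := by
  obtain ⟨x, y, hU, hle, hpos, hco⟩ := exists_pair hc h0 hgen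
  rw [hU, mem_insert, mem_singleton] at hu hv
  have hx : u = x ∧ v = y := by
    rw [Int.abs_eq_natAbs, Int.abs_eq_natAbs] at huv
    rcases hu with rfl | rfl <;> rcases hv with rfl | rfl
    · omega
    · exact ⟨rfl, rfl⟩
    · omega
    · omega
  obtain ⟨rfl, rfl⟩ := hx
  have hfar : (u 0).natAbs + 5 ≤ (v 0).natAbs := by
    rw [Int.abs_eq_natAbs, Int.abs_eq_natAbs] at huv
    omega
  obtain ⟨n, hn1, hn⟩ := not_nested hpos hfar hco (e.trans phi)
  refine ⟨n, ?_, fun hopt => hn ?_⟩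
  · rw [Int.abs_eq_natAbs, Int.abs_eq_natAbs]
    have : 4 * n ≤ ((u 0).natAbs + (v 0).natAbs) ^ 2 + 4 := by omega
    exact_mod_cast this
  · rw [← map_image_range, ← optimal_iff_TOpt hU hpos (by omega)]
    exact hopt

/-- **Exact edge-isoperimetric inequality** for two generators of different size. -/
theorem isoperimetry {U : Finset (Fin 1 → ℤ)} (hc : U.card ≤ 2)
    (h0 : (0 : Fin 1 → ℤ) ∉ U) (hgen : AddSubgroup.closure (U : Set (Fin 1 → ℤ)) = ⊤)
    {u v : Fin 1 → ℤ} (hu : u ∈ U) (hv : v ∈ U) (huv : |u 0| < |v 0|) (n : ℕ) :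
    IsLeast {m : ℕ | ∃ S : Finset (Fin 1 → ℤ), S.card = n ∧ edgeBoundary U S = m}
      (2 * min ⌈2 * Real.sqrt n⌉₊ ((u 0).natAbs + (v 0).natAbs)) := by
  obtain ⟨x, y, hU, hle, hpos, hco⟩ := exists_pair hc h0 hgen
  rw [hU, mem_insert, mem_singleton] at hu hv
  have hx : u = x ∧ v = y := by
    rw [Int.abs_eq_natAbs, Int.abs_eq_natAbs] at huv
    rcases hu with rfl | rfl <;> rcases hv with rfl | rfl
    · omega
    · exact ⟨rfl, rfl⟩
    · omega
    · omega
  obtain ⟨rfl, rfl⟩ := hx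
  have hlt : (u 0).natAbs < (v 0).natAbs := by
    rw [Int.abs_eq_natAbs, Int.abs_eq_natAbs] at huv
    omega
  obtain ⟨h1, S, hS1, hS2⟩ := exact_value hpos hlt hco n
  have hs := symm_pair (U := U.map phi.toEmbedding) (u := u 0) (v := v 0) (by rw [hU, map_pair])
  have hbd := fun T => bd_eq (a := ((u 0).natAbs : ℤ)) (b := ((v 0).natAbs : ℤ))
    (by exact_mod_cast hpos) (by exact_mod_cast hlt) hs T
  constructor
  · obtain ⟨S', rfl⟩ := exists_map_phi S
    rw [card_map_phi] at hS1
    refine ⟨S', hS1, ?_⟩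
    rw [edgeBoundary_eq, hbd, hS2]
  · rintro m ⟨S', hS', rfl⟩
    rw [edgeBoundary_eq, hbd]
    have := h1 (S'.map phi.toEmbedding) (by rw [card_map_phi, hS'])
    omega

end Pool.Agent.Lib.MP_602b76_co_Two
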