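import Mathlib

/-!
# Two generators on the integers: chains

For a finite set `S` of integers and a step `a`, `ch a S` is the number of maximal chains
`x, x + a, x + 2a, ...` in `S`, counted by their last points. The edge boundary of `S` in the
Cayley graph with steps `±a, ±b` is `2 * (ch a S + ch b S)`.
-/

namespace Pool.Agent.Lib.MP_602b76_co_Two

open Finset

/-- The edge boundary of a finite set of integers, as in the problem (dimension one). -/
def bd (U S : Finset ℤ) : ℕ :=
  ((S ×ˢ (U ∪ U.image (fun u => -u))).filter (fun p => p.1 + p.2 ∉ S)).card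

/-- The number of maximal chains of step `a` in `S`. -/
def ch (a : ℤ) (S : Finset ℤ) : ℕ := (S.filter (fun x => x + a ∉ S)).card

/-- The number of adjacent pairs of step `a` in `S`. -/
def adj (a : ℤ) (S : Finset ℤ) : ℕ := (S.filter (fun x => x + a ∈ S)).card

theorem adj_add_ch (a : ℤ) (S : Finset ℤ) : adj a S + ch a S = S.card := by
  unfold adj ch
  exact Finset.card_filter_add_card_filter_not (s := S) (fun x => x + a ∈ S)

theorem adj_neg (a : ℤ) (S : Finset ℤ) : adj (-a) S = adj a S := by
  unfold adj
  apply Finset.card_bij' (fun x _ => x - a) (fun x _ => x + a)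
  · intro x hx
    rw [mem_filter] at hx ⊢
    refine ⟨by simpa [sub_eq_add_neg] using hx.2, by simpa using hx.1⟩
  · intro x hx
    rw [mem_filter] at hx ⊢
    refine ⟨hx.2, by simpa using hx.1⟩
  · intro x _
    simp
  · intro x _
    simp

theorem ch_neg (a : ℤ) (S : Finset ℤ) : ch (-a) S = ch a S := by
  have h1 := adj_add_ch a S
  have h2 := adj_add_ch (-a) S
  have h3 := adj_neg a S
  omega

theorem bd_eq_sum (U S : Finset ℤ) :
    bd U S = ∑ u ∈ U ∪ U.image (fun u => -u), ch u S := by
  unfold bd ch
  rw [Finset.card_filter, Finset.sum_product_right]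
  apply Finset.sum_congr rfl
  intro u _
  rw [Finset.card_filter]

theorem bd_eq {U : Finset ℤ} {a b : ℤ} (ha : 0 < a) (hab : a < b)
    (hU : U ∪ U.image (fun u => -u) = {a, -a, b, -b}) (S : Finset ℤ) :
    bd U S = 2 * (ch a S + ch b S) := by
  rw [bd_eq_sum, hU]
  rw [Finset.sum_insert, Finset.sum_insert, Finset.sum_insert, Finset.sum_singleton, ch_neg, ch_neg]
  · ring
  · simp; omega
  · simp; omega
  · simp; omega

theorem bd_eq_one {U : Finset ℤ} (hU : U ∪ U.image (fun u => -u) = {1, -1}) (S : Finset ℤ) :
    bd U S = 2 * ch 1 S := by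
  rw [bd_eq_sum, hU]
  rw [Finset.sum_insert, Finset.sum_singleton, ch_neg]
  · ring
  · simp

/-- Effect of a new point on the number of chains. -/
theorem ch_insert {a : ℤ} (ha : a ≠ 0) {S : Finset ℤ} {x : ℤ} (hx : x ∉ S) :
    ch a (insert x S) + (if x - a ∈ S then 1 else 0) + (if x + a ∈ S then 1 else 0) =
      ch a S + 1 := by
  have h1 := adj_add_ch a S
  have h2 := adj_add_ch a (insert x S)
  rw [card_insert_of_notMem hx] at h2
  have h3 : adj a (insert x S) =
      adj a S + (if x - a ∈ S then 1 else 0) + (if x + a ∈ S then 1 else 0) := by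
    unfold adj
    rw [Finset.filter_insert]
    have e1 : (S.filter (fun y => y + a ∈ insert x S)) =
        S.filter (fun y => y + a ∈ S) ∪ (S.filter (fun y => y = x - a)) := by
      ext y
      simp only [mem_filter, mem_insert, mem_union]
      constructor
      · rintro ⟨h, h' | h'⟩
        · right; exact ⟨h, by omega⟩
        · left; exact ⟨h, h'⟩
      · rintro (⟨h, h'⟩ | ⟨h, h'⟩)
        · exact ⟨h, Or.inr h'⟩
        · exact ⟨h, Or.inl (by omega)⟩
    have e2 : (S.filter (fun y => y = x - a)).card = (if x - a ∈ S then 1 else 0) := by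
      rw [Finset.filter_eq']
      split_ifs <;> simp
    have e3 : Disjoint (S.filter (fun y => y + a ∈ S)) (S.filter (fun y => y = x - a)) := by
      rw [Finset.disjoint_left]
      intro y hy hy'
      rw [mem_filter] at hy hy'
      apply hx
      have : y + a = x := by rw [hy'.2]; ring
      rw [← this]; exact hy.2
    have e4 : (S.filter (fun y => y + a ∈ insert x S)).card =
        (S.filter (fun y => y + a ∈ S)).card + (if x - a ∈ S then 1 else 0) := by
      rw [e1, card_union_of_disjoint e3, e2]
    have e5 : (x + a ∈ insert x S) ↔ x + a ∈ S := by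
      rw [mem_insert]
      constructor
      · rintro (h | h)
        · exact absurd (by omega) ha
        · exact h
      · exact Or.inr
    by_cases h : x + a ∈ S
    · rw [if_pos (e5.2 h), card_insert_of_notMem, e4, if_pos h]
      intro h'
      rw [mem_filter] at h'
      exact hx h'.1
    · rw [if_neg (fun h' => h (e5.1 h')), e4, if_neg h]
      simp
  omega

/-- A function that is constant along the steps inside `S` takes at most `ch b S` values. -/
theorem image_le_ch {b : ℤ} (hb : 0 < b) {T : Type*} [DecidableEq T] (S : Finset ℤ) (f : ℤ → T)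
    (hf : ∀ x ∈ S, x + b ∈ S → f (x + b) = f x) :
    (S.image f).card ≤ ch b S := by
  unfold ch
  have : S.image f ⊆ (S.filter (fun x => x + b ∉ S)).image f := by
    intro c hc
    rw [mem_image] at hc
    obtain ⟨y, hy, hyc⟩ := hc
    have hne : (S.filter (fun x : ℤ => f x = c)).Nonempty := ⟨y, by simp [hy, hyc]⟩
    obtain ⟨z, hz, hmax⟩ := Finset.exists_max_image _ (fun x : ℤ => x) hne
    rw [mem_filter] at hz
    rw [mem_image]
    refine ⟨z, ?_, hz.2⟩
    rw [mem_filter]
    refine ⟨hz.1, fun h => ?_⟩
    have := hmax (z + b) (by rw [mem_filter]; exact ⟨h, (hf z hz.1 h).trans hz.2⟩)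
    omega
  exact le_trans (card_le_card this) card_image_le

/-- The set `S` does not meet the class of `y` modulo `b`. -/
def Miss (b : ℕ) (S : Finset ℤ) (y : ℤ) : Prop := ∀ x ∈ S, ¬ ((b : ℤ) ∣ x - y)

/-- If every class modulo `b` is met there are at least `b` chains of step `b`. -/
theorem le_ch_of_all {b : ℕ} (hb : 0 < b) {S : Finset ℤ} (h : ∀ y, ¬ Miss b S y) :
    b ≤ ch (b : ℤ) S := by
  have h1 := image_le_ch (b := (b : ℤ)) (by exact_mod_cast hb) S (fun x : ℤ => x % (b : ℤ))
    (by intro x _ _; simp)
  refine le_trans ?_ h1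
  have : (Finset.range b).image (fun k : ℕ => (k : ℤ)) ⊆ S.image (fun x : ℤ => x % (b : ℤ)) := by
    intro c hc
    rw [mem_image] at hc
    obtain ⟨k, hk, rfl⟩ := hc
    rw [mem_range] at hk
    have := h k
    unfold Miss at this
    push Not at this
    obtain ⟨x, hx, hd⟩ := this
    rw [mem_image]
    refine ⟨x, hx, ?_⟩
    have h2 : x % (b : ℤ) = (k : ℤ) % (b : ℤ) :=
      Int.emod_eq_emod_iff_emod_sub_eq_zero.2 (Int.emod_eq_zero_of_dvd hd)
    change x % (b : ℤ) = (k : ℤ)
    rw [h2]
    exact Int.emod_eq_of_lt (by positivity) (by exact_mod_cast hk)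
  have h3 := card_le_card this
  rw [card_image_of_injective (f := fun k : ℕ => (k : ℤ)) _ Nat.cast_injective,
    card_range] at h3
  exact h3

end Pool.Agent.Lib.MP_602b76_co_Two
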