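import Pool.Agent.Lib.MP_602b76_co_Two.Pos

/-!
# Two generators on the integers: enumerations
-/

namespace Pool.Agent.Lib.MP_602b76_co_Two

open Finset

variable {a b : ℕ}

theorem seq_of_reach {T : Finset ℤ} (h : Reach a b ∅ T) :
    ∃ S : ℕ → Finset ℤ, S 0 = ∅ ∧ S T.card = T ∧
      (∀ n, n < T.card → ∃ x, x ∉ S n ∧ S (n + 1) = insert x (S n)) ∧
      ∀ n, n ≤ T.card → S n = ∅ ∨ Good a b (S n) := by
  induction h with
  | refl =>
    refine ⟨fun _ => ∅, rfl, rfl, ?_, ?_⟩
    · intro n hn
      simp at hn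
    · intro n _
      exact Or.inl rfl
  | tail _ hs ih =>
    obtain ⟨S, h0, h1, h2, h3⟩ := ih
    obtain ⟨x, hx, hT, hg⟩ := hs
    rename_i T T' _
    have hc : T'.card = T.card + 1 := by rw [hT, card_insert_of_notMem hx]
    refine ⟨fun n => if n ≤ T.card then S n else T', ?_, ?_, ?_, ?_⟩
    · simp [h0]
    · rw [hc]
      simp
    · intro n hn
      rw [hc] at hn
      by_cases hlt : n < T.card
      · obtain ⟨z, hz1, hz2⟩ := h2 n hlt
        refine ⟨z, ?_, ?_⟩
        · simpa [hlt.le] using hz1
        · simp only [Nat.succ_le_of_lt hlt, hlt.le, if_true]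
          exact hz2
      · have hn' : n = T.card := by omega
        subst hn'
        refine ⟨x, ?_, ?_⟩
        · simpa [h1] using hx
        · simp [h1, hT]
    · intro n hn
      by_cases hlt : n ≤ T.card
      · simp only [hlt, if_true]
        exact h3 n hlt
      · simp only [hlt, if_false]
        exact Or.inr hg

/-- The growing intervals. -/
noncomputable def grow (u w : ℤ) (k : ℕ) : Finset ℤ := Ico (u - (k / 2 : ℕ)) (w + ((k + 1) / 2 : ℕ))

theorem grow_step (u w : ℤ) (huw : u ≤ w) (k : ℕ) :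
    ∃ x, x ∉ grow u w k ∧ grow u w (k + 1) = insert x (grow u w k) := by
  obtain ⟨m, hm | hm⟩ : ∃ m, k = 2 * m ∨ k = 2 * m + 1 := ⟨k / 2, by omega⟩
  · refine ⟨w + m, ?_, ?_⟩
    · unfold grow
      rw [mem_Ico, hm]
      omega
    · unfold grow
      ext y
      rw [mem_insert, mem_Ico, mem_Ico, hm]
      have e1 : 2 * m / 2 = m := by omega
      have e2 : (2 * m + 1) / 2 = m := by omega
      have e3 : (2 * m + 1 + 1) / 2 = m + 1 := by omega
      rw [e1, e2, e3]
      push_cast
      omega
  · refine ⟨u - m - 1, ?_, ?_⟩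
    · unfold grow
      rw [mem_Ico, hm]
      omega
    · unfold grow
      ext y
      rw [mem_insert, mem_Ico, mem_Ico, hm]
      have e1 : (2 * m + 1) / 2 = m := by omega
      have e2 : (2 * m + 1 + 1) / 2 = m + 1 := by omega
      have e3 : (2 * m + 1 + 1 + 1) / 2 = m + 1 := by omega
      rw [e1, e2, e3]
      push_cast
      omega

theorem grow_cover (u w : ℤ) (x : ℤ) : ∃ k, x ∈ grow u w k := by
  refine ⟨2 * ((x - u).natAbs + (x - w).natAbs + 1), ?_⟩
  unfold grow
  rw [mem_Ico]
  omega

/-- A chain of finite sets which grow by one point and exhaust the integers comes from an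
enumeration. -/
theorem enum_of_chain {α : Type*} [DecidableEq α] (S : ℕ → Finset α) (h0 : S 0 = ∅)
    (hstep : ∀ n, ∃ x, x ∉ S n ∧ S (n + 1) = insert x (S n))
    (hcov : ∀ x, ∃ n, x ∈ S n) :
    ∃ e : ℕ ≃ α, ∀ n, (range n).image e = S n := by
  choose z hz1 hz2 using hstep
  have himg : ∀ n, (range n).image z = S n := by
    intro n
    induction n with
    | zero => simp [h0]
    | succ n ih => rw [range_add_one, image_insert, ih, hz2]
  have hinj : Function.Injective z := by
    have hlt : ∀ i j, i < j → z i ≠ z j := by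
      intro i j hij h
      apply hz1 j
      rw [← h, ← himg]
      exact mem_image_of_mem _ (mem_range.2 hij)
    intro i j h
    rcases lt_trichotomy i j with h' | h' | h'
    · exact absurd h (hlt i j h')
    · exact h'
    · exact absurd h.symm (hlt j i h')
  have hsurj : Function.Surjective z := by
    intro x
    obtain ⟨n, hn⟩ := hcov x
    rw [← himg, mem_image] at hn
    obtain ⟨k, _, hk⟩ := hn
    exact ⟨k, hk⟩
  refine ⟨Equiv.ofBijective z ⟨hinj, hsurj⟩, fun n => ?_⟩
  rw [← himg]
  rfl

/-- **Positive part.** -/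
theorem exists_nested (ha : 0 < a) (hab : a < b) (hba : b ≤ a + 4) (hco : Nat.Coprime a b) :
    ∃ e : ℕ ≃ ℤ, ∀ n, TOpt a b ((range n).image e) := by
  have hb : 0 < b := by omega
  obtain ⟨u, w, huw, hr, hc⟩ := interval_reach ha hab hba hco
  obtain ⟨S, h0, h1, h2, h3⟩ := seq_of_reach hr
  set N := (Ico u w).card with hN
  have hNval : (N : ℤ) = w - u := by
    rw [hN, Int.card_Ico]
    omega
  have hgrow0 : grow u w 0 = Ico u w := by
    unfold grow
    simp
  let S' : ℕ → Finset ℤ := fun n => if n < N then S n else grow u w (n - N)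
  have hS'0 : S' 0 = ∅ := by
    by_cases hN0 : 0 < N
    · simp only [S', hN0, if_true, h0]
    · simp only [S', hN0, if_false]
      have : N = 0 := by omega
      rw [this, Nat.sub_zero, hgrow0]
      rw [Finset.card_eq_zero] at this
      exact this
  have hS'step : ∀ n, ∃ x, x ∉ S' n ∧ S' (n + 1) = insert x (S' n) := by
    intro n
    by_cases hn : n < N
    · obtain ⟨x, hx1, hx2⟩ := h2 n hn
      refine ⟨x, by simpa only [S', hn, if_true] using hx1, ?_⟩
      by_cases hn1 : n + 1 < N
      · simpa only [S', hn, hn1, if_true] using hx2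
      · simp only [S', hn, hn1, if_true, if_false]
        have : n + 1 = N := by omega
        rw [this, Nat.sub_self, hgrow0, ← h1, ← this]
        exact hx2
    · obtain ⟨x, hx1, hx2⟩ := grow_step u w huw (n - N)
      have hn1 : ¬ n + 1 < N := by omega
      refine ⟨x, by simpa only [S', hn, if_false] using hx1, ?_⟩
      simp only [S', hn, hn1, if_false]
      have : n + 1 - N = n - N + 1 := by omega
      rw [this]
      exact hx2
  have hS'cov : ∀ x, ∃ n, x ∈ S' n := by
    intro x
    obtain ⟨k, hk⟩ := grow_cover u w x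
    refine ⟨N + k, ?_⟩
    have : ¬ N + k < N := by omega
    simp only [S', this, if_false]
    rwa [Nat.add_sub_cancel_left]
  obtain ⟨e, he⟩ := enum_of_chain S' hS'0 hS'step hS'cov
  refine ⟨e, fun n => ?_⟩
  rw [he]
  by_cases hn : n < N
  · simp only [S', hn, if_true]
    rcases h3 n hn.le with h | h
    · rw [h]; exact TOpt_empty a b
    · exact h.opt ha hb hco
  · simp only [S', hn, if_false]
    apply Good.opt ha hb hco
    refine ⟨a + b - 1, ?_, by omega, ?_⟩
    · have g1 := ch_Ico_le a (u - ((n - N) / 2 : ℕ)) (w + ((n - N + 1) / 2 : ℕ))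
      have g2 := ch_Ico_le b (u - ((n - N) / 2 : ℕ)) (w + ((n - N + 1) / 2 : ℕ))
      unfold grow
      omega
    · have : N ≤ (grow u w (n - N)).card := by
        rw [hN]
        apply card_le_card
        intro x hx
        unfold grow
        rw [mem_Ico] at hx ⊢
        omega
      omega

/-- **Negative part**, for enumerations. -/
theorem not_nested (ha : 0 < a) (hab : a + 5 ≤ b) (hco : Nat.Coprime a b) (e : ℕ ≃ ℤ) :
    ∃ n, n ≤ (a + b) ^ 2 / 4 + 1 ∧ ¬ TOpt a b ((range n).image e) := by
  by_contra hcon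
  push Not at hcon
  refine no_nested ha hab hco (fun n => (range n).image e) ?_ ?_ hcon
  · intro n
    rw [card_image_of_injective _ e.injective, card_range]
  · intro n
    refine ⟨e n, ?_, ?_⟩
    · intro h
      rw [mem_image] at h
      obtain ⟨k, hk, hk'⟩ := h
      have := e.injective hk'
      rw [mem_range] at hk
      omega
    · rw [range_add_one, image_insert]

/-- **Exact value** : the least number of chains of a set of `n` integers. -/
theorem exact_value (ha : 0 < a) (hab : a < b) (hco : Nat.Coprime a b) (n : ℕ) :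
    (∀ S : Finset ℤ, S.card = n →
      min ⌈2 * Real.sqrt n⌉₊ (a + b) ≤ ch (a : ℤ) S + ch (b : ℤ) S) ∧
    ∃ S : Finset ℤ, S.card = n ∧
      ch (a : ℤ) S + ch (b : ℤ) S = min ⌈2 * Real.sqrt n⌉₊ (a + b) := by
  have hb : 0 < b := by omega
  have hlow : ∀ S : Finset ℤ, S.card = n →
      min ⌈2 * Real.sqrt n⌉₊ (a + b) ≤ ch (a : ℤ) S + ch (b : ℤ) S := by
    intro S hS
    rcases lower_bound ha hb hco S with h | h
    · exact le_trans (min_le_right _ _) h
    · refine le_trans (min_le_left _ _) ?_
      rw [Nat.ceil_le]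
      rw [hS] at h
      have h1 : Real.sqrt n ≤ ((ch (a : ℤ) S + ch (b : ℤ) S : ℕ) : ℝ) / 2 := by
        rw [Real.sqrt_le_left (by positivity)]
        have h2 : (4 * n : ℝ) ≤ ((ch (a : ℤ) S + ch (b : ℤ) S : ℕ) : ℝ) ^ 2 := by
          exact_mod_cast h
        linarith
      linarith
  refine ⟨hlow, ?_⟩
  obtain ⟨p, hp⟩ : ∃ p, p = (a + b) / 2 := ⟨_, rfl⟩
  obtain ⟨q, hq⟩ : ∃ q, q = a + b - 1 - p := ⟨_, rfl⟩
  by_cases hn : n ≤ p * q
  · obtain ⟨S, h0, h1, h2, h3⟩ := seq_of_reach (rect_reach ha hab hco hp hq)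
    rw [card_Rect hb hco (by omega)] at h1 h2 h3
    have hcard : ∀ k, k ≤ p * q → (S k).card = k := by
      intro k
      induction k with
      | zero => intro _; rw [h0]; rfl
      | succ k ih =>
        intro hk
        obtain ⟨x, hx, he⟩ := h2 k (by omega)
        rw [he, card_insert_of_notMem hx, ih (by omega)]
    refine ⟨S n, hcard n hn, le_antisymm ?_ (hlow _ (hcard n hn))⟩
    rcases h3 n hn with h | h
    · rw [h]
      simp [ch]
    · obtain ⟨t, ht1, ht2, ht3⟩ := h
      rw [hcard n hn] at ht3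
      refine le_min (le_trans ht1 ?_) (le_trans ht1 ht2)
      rw [Nat.succ_le_iff, Nat.lt_ceil]
      have h4 : (t : ℝ) / 2 < Real.sqrt n := by
        rw [Real.lt_sqrt (by positivity)]
        have : ((t : ℝ)) ^ 2 < 4 * n := by exact_mod_cast ht3
        linarith
      linarith
  · obtain ⟨S, hS1, hS2⟩ := exists_interval a b n
    refine ⟨S, hS1, le_antisymm (le_min (le_trans hS2 ?_) hS2) (hlow _ hS1)⟩
    have hpq : p + q + 1 = a + b := by omega
    rw [← hpq, Nat.succ_le_iff, Nat.lt_ceil]
    have h4 : ((p + q : ℕ) : ℝ) / 2 < Real.sqrt n := by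
      rw [Real.lt_sqrt (by positivity)]
      have h5 : (p + q) ^ 2 ≤ 4 * (p * q) + 1 := by
        obtain h | h : p = q ∨ p = q + 1 := by omega
        · rw [h]; nlinarith
        · rw [h]; nlinarith
      have h6 : (p + q) ^ 2 < 4 * n := by omega
      have : (((p + q : ℕ) : ℝ)) ^ 2 < 4 * n := by exact_mod_cast h6
      linarith
    linarith

end Pool.Agent.Lib.MP_602b76_co_Two
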