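import Pool.Agent.Lib.MP_602b76_co_Two.Shapes

/-!
# Two generators on the integers: no nested sequence when `b ≥ a + 5`
-/

namespace Pool.Agent.Lib.MP_602b76_co_Two

open Finset

variable {a b : ℕ}

theorem Miss_insert {S : Finset ℤ} {x y : ℤ} :
    Miss b (insert x S) y ↔ ¬ ((b : ℤ) ∣ x - y) ∧ Miss b S y := by
  unfold Miss
  simp

theorem not_mem_of_miss {S : Finset ℤ} {x y : ℤ} (h : Miss b S y) (hd : (b : ℤ) ∣ x - y) :
    x ∉ S := fun hx => h x hx hd

/-- A point in a new class starts a new chain of step `b`. -/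
theorem ch_b_new (hb : 0 < b) {S : Finset ℤ} {x y : ℤ} (h : Miss b S y)
    (hd : (b : ℤ) ∣ x - y) : ch (b : ℤ) (insert x S) = ch (b : ℤ) S + 1 := by
  have h0 := ch_insert (a := (b : ℤ)) (by positivity) (not_mem_of_miss h hd)
  rw [if_neg (not_mem_of_miss h (by
    have : x - b - y = (x - y) - b := by ring
    rw [this]; exact dvd_sub hd (dvd_refl _))),
    if_neg (not_mem_of_miss h (by
    have : x + b - y = (x - y) + b := by ring
    rw [this]; exact dvd_add hd (dvd_refl _)))] at h0
  omega

theorem ch_a_ge_left (ha : 0 < a) {S : Finset ℤ} {x y : ℤ} (hx : x ∉ S) (h : Miss b S y)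
    (hd : (b : ℤ) ∣ x - a - y) : ch (a : ℤ) S ≤ ch (a : ℤ) (insert x S) := by
  have h0 := ch_insert (a := (a : ℤ)) (by positivity) hx
  rw [if_neg (not_mem_of_miss h hd)] at h0
  split_ifs at h0 <;> omega

theorem ch_a_ge_right (ha : 0 < a) {S : Finset ℤ} {x y : ℤ} (hx : x ∉ S) (h : Miss b S y)
    (hd : (b : ℤ) ∣ x + a - y) : ch (a : ℤ) S ≤ ch (a : ℤ) (insert x S) := by
  have h0 := ch_insert (a := (a : ℤ)) (by positivity) hx
  rw [if_neg (not_mem_of_miss h hd)] at h0
  split_ifs at h0 <;> omega

/-- As long as the number of chains does not change, two adjacent missing classes stay. -/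
theorem step_next (ha : 0 < a) (hb : 0 < b) {S : Finset ℤ} {x y : ℤ} (hx : x ∉ S)
    (h1 : Miss b S y) (h2 : Miss b S (y + a))
    (ht : ch (a : ℤ) (insert x S) + ch (b : ℤ) (insert x S) ≤ ch (a : ℤ) S + ch (b : ℤ) S) :
    Miss b (insert x S) y ∧ Miss b (insert x S) (y + a) := by
  rw [Miss_insert, Miss_insert]
  refine ⟨⟨fun hd => ?_, h1⟩, ⟨fun hd => ?_, h2⟩⟩
  · have e1 := ch_b_new hb h1 hd
    have e2 := ch_a_ge_right ha hx h2 (by
      have : x + a - (y + a) = x - y := by ring
      rwa [this])
    omega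
  · have e1 := ch_b_new hb h2 hd
    have e2 := ch_a_ge_left ha hx h1 (by
      have : x - a - y = x - (y + a) := by ring
      rwa [this])
    omega

/-- If the number of chains grows by one, three consecutive missing classes leave two. -/
theorem step_first (ha : 0 < a) (hab : a < b) (hco : Nat.Coprime a b) (hb2 : 2 < b)
    {S : Finset ℤ} {x y : ℤ} (hx : x ∉ S)
    (h1 : Miss b S y) (h2 : Miss b S (y + a)) (h3 : Miss b S (y + a + a))
    (ht : ch (a : ℤ) (insert x S) + ch (b : ℤ) (insert x S) ≤ ch (a : ℤ) S + ch (b : ℤ) S + 1) :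
    ∃ y', Miss b (insert x S) y' ∧ Miss b (insert x S) (y' + a) := by
  have hna : ¬ ((b : ℤ) ∣ (a : ℤ)) := by
    intro h
    have := Int.le_of_dvd (by exact_mod_cast ha) h
    omega
  have hn2a : ¬ ((b : ℤ) ∣ (a : ℤ) + a) := by
    intro h
    have h' : (b : ℤ) ∣ (2 : ℤ) * a := by rwa [two_mul]
    have hc : IsCoprime (b : ℤ) (a : ℤ) := Nat.isCoprime_iff_coprime.2 hco.symm
    have := Int.le_of_dvd (by norm_num) (hc.dvd_of_dvd_mul_right h')
    omega
  by_cases c1 : (b : ℤ) ∣ x - y
  · refine ⟨y + a, Miss_insert.2 ⟨fun hd => hna ?_, h2⟩, Miss_insert.2 ⟨fun hd => hn2a ?_, h3⟩⟩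
    · have : (a : ℤ) = (x - y) - (x - (y + a)) := by ring
      rw [this]; exact dvd_sub c1 hd
    · have : (a : ℤ) + a = (x - y) - (x - (y + a + a)) := by ring
      rw [this]; exact dvd_sub c1 hd
  · by_cases c3 : (b : ℤ) ∣ x - (y + a)
    · exfalso
      have e1 := ch_b_new (by omega) h2 c3
      have e0 := ch_insert (a := (a : ℤ)) (by positivity) hx
      rw [if_neg (not_mem_of_miss h1 (by
        have : x - a - y = x - (y + a) := by ring
        rwa [this])), if_neg (not_mem_of_miss h3 (by
        have : x + a - (y + a + a) = x - (y + a) := by ring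
        rwa [this]))] at e0
      omega
    · exact ⟨y, Miss_insert.2 ⟨c1, h1⟩, Miss_insert.2 ⟨c3, h2⟩⟩

/-- Integers: a product with bounded sum. -/
theorem balanced {p q C R : ℕ} (hqp : q ≤ p) (hs : C + R ≤ p + q) (hm : p * q ≤ C * R) :
    C ≤ p := by
  by_contra hc
  push Not at hc
  obtain ⟨k, rfl⟩ := Nat.exists_eq_add_of_lt hc
  have h1 : R + k + 1 ≤ q := by omega
  nlinarith

theorem balanced' {p q C R : ℕ} (hqp : q ≤ p) (hpq : p ≤ q + 1) (hs : C + R + 1 ≤ p + q)
    (hm : p * q ≤ C * R) (hq : 0 < q) : False := by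
  have h1 : 4 * (C * R) ≤ (C + R) ^ 2 := by
    zify
    nlinarith [sq_nonneg ((C : ℤ) - R)]
  have h2 : (C + R) ^ 2 + 2 * (p + q) ≤ (p + q) ^ 2 + 1 := by
    have : (C + R + 1) ^ 2 ≤ (p + q) ^ 2 := Nat.pow_le_pow_left hs 2
    nlinarith
  have h3 : (p + q) ^ 2 ≤ 4 * (p * q) + 1 := by
    obtain h | h : p = q ∨ p = q + 1 := by omega
    · subst h; nlinarith
    · subst h; nlinarith
  nlinarith

/-- **Structure of the optimal sets of size `p q`** : three consecutive classes are missing. -/
theorem structure_rect (ha : 0 < a) (hb : 0 < b) (hco : Nat.Coprime a b) {p q : ℕ}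
    (hqp : q ≤ p) (hpq : p ≤ q + 1) (hpb : p + 3 ≤ b) (hqa : a < q) {S : Finset ℤ}
    (hsum : p + q < a + b)
    (hcard : S.card = p * q) (ht : ch (a : ℤ) S + ch (b : ℤ) S ≤ p + q) :
    ∃ y, Miss b S y ∧ Miss b S (y + a) ∧ Miss b S (y + a + a) := by
  have hq : 0 < q := by omega
  by_cases h1 : ∃ c, Miss b S c
  · obtain ⟨c, hc⟩ := h1
    obtain ⟨A, hA⟩ := exists_inv hco
    have hC := cols_le (c := c) hb hA S
    have hR := rows_le ha hb hA hc
    have hprod := card_le_prod (c := c) hA S
    have hsub := subset_prod (c := c) hA S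
    set cols := S.image (ix A c b) with hcols
    set rows := S.image (jx A c a b) with hrows
    have hCp : cols.card ≤ p := balanced (C := cols.card) (R := rows.card) hqp (by omega)
      (by rw [← hcard]; exact hprod)
    have hRa : ch (a : ℤ) S = rows.card := by
      by_contra hne
      exact balanced' (C := cols.card) (R := rows.card) hqp hpq (by omega)
        (by rw [← hcard]; exact hprod) hq
    have hCR : cols.card * rows.card ≤ S.card := by
      rw [hcard]
      have h1 : 4 * (cols.card * rows.card) ≤ (cols.card + rows.card) ^ 2 := by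
        zify
        nlinarith [sq_nonneg ((cols.card : ℤ) - rows.card)]
      have h2 : (cols.card + rows.card) ^ 2 ≤ (p + q) ^ 2 :=
        Nat.pow_le_pow_left (by omega) 2
      have h3 : (p + q) ^ 2 ≤ 4 * (p * q) + 1 := by
        obtain h | h : p = q ∨ p = q + 1 := by omega
        · subst h; nlinarith
        · subst h; nlinarith
      omega
    have hfull : ∀ i ∈ cols, ∀ j ∈ rows, c + i * a + j * b ∈ S := by
      have he : S = (cols ×ˢ rows).image (fun p => c + p.1 * a + p.2 * b) := by
        apply Finset.eq_of_subset_of_card_le hsub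
        refine le_trans card_image_le ?_
        rw [card_product]
        exact hCR
      intro i hi j hj
      rw [he, mem_image]
      exact ⟨(i, j), by rw [mem_product]; exact ⟨hi, hj⟩, rfl⟩
    have hSne : S.Nonempty := by
      rw [← Finset.card_pos, hcard]
      exact Nat.mul_pos (by omega) hq
    have hcne : cols.Nonempty := hSne.image _
    have hrne : rows.Nonempty := hSne.image _
    obtain ⟨M, hM, hMmax⟩ := Finset.exists_max_image cols (fun x => x) hcne
    obtain ⟨m, hm, hmin⟩ := Finset.exists_min_image cols (fun x => x) hcne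
    have hrange : ∀ i ∈ cols, 1 ≤ i ∧ i < b := by
      intro i hi
      rw [hcols, mem_image] at hi
      obtain ⟨x, hx, rfl⟩ := hi
      have g0 := ix_nonneg (A := A) (c := c) hb x
      have g1 := ix_lt (A := A) (c := c) hb x
      refine ⟨?_, g1⟩
      by_contra hlt
      exact hc x hx (ix_eq_zero hA (by omega))
    -- a column whose successor is not a column is the last one
    have hend : ∀ i ∈ cols, i + 1 ∉ cols → ∀ j ∈ rows, c + i * a + j * b + a ∉ S := by
      intro i hi hi' j hj hmem
      have hst := step_a hb hA hc hmem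
      rw [ix_repr hA (by have := hrange i hi; omega) (hrange i hi).2] at hst
      apply hi'
      rw [hcols, mem_image]
      exact ⟨_, hmem, hst.1⟩
    have hsucc : ∀ i ∈ cols, i < M → i + 1 ∈ cols := by
      intro i hi hiM
      by_contra hi'
      have hM' : M + 1 ∉ cols := fun h => by have := hMmax _ h; omega
      have hsubT : (({i, M} : Finset ℤ) ×ˢ rows).image (fun p => c + p.1 * a + p.2 * b) ⊆
          S.filter (fun x => x + (a : ℤ) ∉ S) := by
        intro x hx
        rw [mem_image] at hx
        obtain ⟨⟨i', j'⟩, hij, rfl⟩ := hx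
        rw [mem_product, mem_insert, mem_singleton] at hij
        obtain ⟨hi1, hj1⟩ := hij
        rw [mem_filter]
        rcases hi1 with h | h
        · simp only at h
          subst h
          exact ⟨hfull _ hi _ hj1, hend _ hi hi' _ hj1⟩
        · simp only at h
          subst h
          exact ⟨hfull _ hM _ hj1, hend _ hM hM' _ hj1⟩
      have hcT := card_le_card hsubT
      rw [card_image_of_injOn, card_product, card_pair (by omega)] at hcT
      · unfold ch at hRa
        have := hrne.card_pos
        omega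
      · intro s hs t ht' hst
        rw [mem_coe, mem_product, mem_insert, mem_singleton] at hs ht'
        have hs1 : s.1 ∈ cols := by rcases hs.1 with h | h <;> rw [h] <;> assumption
        have ht1 : t.1 ∈ cols := by rcases ht'.1 with h | h <;> rw [h] <;> assumption
        have r1 := hrange _ hs1
        have r2 := hrange _ ht1
        have := coord_unique (a := a) hb hco (i := s.1) (i' := t.1) (j := s.2) (j' := t.2)
          (by omega) (by omega) (by simp only at hst; linear_combination hst)
        ext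
        · exact this.1
        · exact this.2
    have hicc : Icc m M ⊆ cols := by
      intro i hi
      rw [mem_Icc] at hi
      obtain ⟨hi1, hi2⟩ := hi
      obtain ⟨k, rfl⟩ := Int.le.dest hi1
      clear hi1
      induction k with
      | zero => simpa using hm
      | succ k ih =>
        have := hsucc (m + k) (ih (by push_cast at hi2; omega)) (by push_cast at hi2; omega)
        have e : m + ((k + 1 : ℕ) : ℤ) = m + k + 1 := by push_cast; ring
        rwa [e]
    have hlen : M - m + 1 ≤ p := by
      have := card_le_card hicc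
      rw [Int.card_Icc] at this
      omega
    have hmiss : ∀ k : ℤ, 1 ≤ k → k ≤ 3 → Miss b S (c + (M + k) * a) := by
      intro k hk1 hk3 x hx hd
      have hi : ix A c b x ∈ cols := mem_image_of_mem _ hx
      have h1 := hMmax _ hi
      have h2 := hmin _ hi
      have hrep := repr_eq (c := c) hA x
      have hd2 : (b : ℤ) ∣ (M + k - ix A c b x) * a := by
        obtain ⟨t, ht⟩ := hd
        refine ⟨jx A c a b x - t, ?_⟩
        linear_combination hrep - ht
      have hcc : IsCoprime (b : ℤ) (a : ℤ) := Nat.isCoprime_iff_coprime.2 hco.symm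
      have hd3 := hcc.dvd_of_dvd_mul_right hd2
      have h4 := Int.le_of_dvd (by omega) hd3
      omega
    refine ⟨c + (M + 1) * a, hmiss 1 (by norm_num) (by norm_num), ?_, ?_⟩
    · have e : c + (M + 1) * a + a = c + (M + 2) * a := by ring
      rw [e]
      exact hmiss 2 (by norm_num) (by norm_num)
    · have e : c + (M + 1) * a + a + a = c + (M + 3) * a := by ring
      rw [e]
      exact hmiss 3 (by norm_num) (by norm_num)
  · exfalso
    push Not at h1
    by_cases h2 : ∃ c, Miss a S c
    · obtain ⟨c, hc⟩ := h2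
      obtain ⟨A, hA⟩ := exists_inv hco.symm
      have hC := cols_le (c := c) ha hA S
      have hR := rows_le hb ha hA hc
      have hprod := card_le_prod (c := c) hA S
      set cols := S.image (ix A c a) with hcols
      set rows := S.image (jx A c b a) with hrows
      have hCa : cols.card ≤ a := by
        have : cols ⊆ Ico (0 : ℤ) a := by
          intro i hi
          rw [hcols, mem_image] at hi
          obtain ⟨x, _, rfl⟩ := hi
          rw [mem_Ico]
          exact ⟨ix_nonneg ha x, ix_lt ha x⟩
        have := card_le_card this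
        rwa [Int.card_Ico, sub_zero, Int.toNat_natCast] at this
      rw [hcard] at hprod
      obtain ⟨k, hk⟩ := Nat.exists_eq_add_of_lt (lt_of_le_of_lt hCa hqa)
      have hrk : rows.card ≤ p + k + 1 := by omega
      have : cols.card * rows.card ≤ cols.card * (p + k + 1) := Nat.mul_le_mul_left _ hrk
      nlinarith
    · push Not at h2
      have g1 := le_ch_of_all ha h2
      have g2 := le_ch_of_all hb h1
      omega

/-- The condition of optimality in terms of chains. -/
def TOpt (a b : ℕ) (S : Finset ℤ) : Prop :=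
  ∀ S' : Finset ℤ, S'.card = S.card →
    ch (a : ℤ) S + ch (b : ℤ) S ≤ ch (a : ℤ) S' + ch (b : ℤ) S'

/-- **No nested sequence.** If `b ≥ a + 5`, no sequence of optimal sets, each the previous one
with one new point, passes the size `(a + b) ^ 2 / 4 + 1`. -/
theorem no_nested (ha : 0 < a) (hab : a + 5 ≤ b) (hco : Nat.Coprime a b) (S : ℕ → Finset ℤ)
    (hcard : ∀ n, (S n).card = n) (hstep : ∀ n, ∃ x, x ∉ S n ∧ S (n + 1) = insert x (S n))
    (hopt : ∀ n, n ≤ (a + b) ^ 2 / 4 + 1 → TOpt a b (S n)) : False := by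
  have hb : 0 < b := by omega
  obtain ⟨p, hp⟩ : ∃ p, p = (a + b) / 2 := ⟨_, rfl⟩
  obtain ⟨q, hq⟩ : ∃ q, q = a + b - 1 - p := ⟨_, rfl⟩
  have hqp : q ≤ p := by omega
  have hpq : p ≤ q + 1 := by omega
  have hpb : p + 3 ≤ b := by omega
  have hqa : a < q := by omega
  have hs : p + q + 1 = a + b := by omega
  set N := (a + b) ^ 2 / 4 + 1 with hN
  have h4 : (p + q) ^ 2 ≤ 4 * (p * q) + 1 := by
    obtain h | h : p = q ∨ p = q + 1 := by omega
    · rw [h]; nlinarith
    · rw [h]; nlinarith
  have h4' : 4 * (p * q) ≤ (p + q) ^ 2 := by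
    zify
    nlinarith [sq_nonneg ((p : ℤ) - q)]
  have hn1N : p * q + 1 ≤ N := by
    rw [hN, ← hs]
    have : p * q ≤ (p + q + 1) ^ 2 / 4 := by
      rw [Nat.le_div_iff_mul_le (by norm_num)]
      nlinarith
    omega
  have hN4 : (a + b) ^ 2 < 4 * N := by
    rw [hN]
    omega
  have hupper : ∀ n, n ≤ N → ch (a : ℤ) (S n) + ch (b : ℤ) (S n) ≤ a + b := by
    intro n hn
    obtain ⟨T, hT1, hT2⟩ := exists_interval a b n
    exact le_trans (hopt n hn T (by rw [hT1, hcard])) hT2
  have hlower : ∀ n, p * q + 1 ≤ n → a + b ≤ ch (a : ℤ) (S n) + ch (b : ℤ) (S n) := by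
    intro n hn
    by_contra hlt
    push Not at hlt
    rcases lower_bound ha hb hco (S n) with h | h
    · omega
    · rw [hcard] at h
      have : (ch (a : ℤ) (S n) + ch (b : ℤ) (S n)) ^ 2 ≤ (p + q) ^ 2 :=
        Nat.pow_le_pow_left (by omega) 2
      omega
  have h1 : ch (a : ℤ) (S (p * q)) + ch (b : ℤ) (S (p * q)) ≤ p + q := by
    have := hopt (p * q) (by omega) (Rect a b p q) (by rw [card_Rect hb hco (by omega), hcard])
    have h2 := ch_a_Rect (a := a) (b := b) (p := p) (q := q)
    have h3 := ch_b_Rect (a := a) (b := b) (p := p) (q := q)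
    omega
  have h1' : p + q ≤ ch (a : ℤ) (S (p * q)) + ch (b : ℤ) (S (p * q)) := by
    by_contra hlt
    push Not at hlt
    rcases lower_bound ha hb hco (S (p * q)) with h | h
    · omega
    · rw [hcard] at h
      have : (ch (a : ℤ) (S (p * q)) + ch (b : ℤ) (S (p * q)) + 1) ^ 2 ≤ (p + q) ^ 2 :=
        Nat.pow_le_pow_left (by omega) 2
      nlinarith
  obtain ⟨y, hy1, hy2, hy3⟩ := structure_rect ha hb hco hqp hpq hpb hqa (by omega)
    (hcard (p * q)) h1
  have hfirst : ∃ y', Miss b (S (p * q + 1)) y' ∧ Miss b (S (p * q + 1)) (y' + a) := by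
    obtain ⟨x, hx, he⟩ := hstep (p * q)
    have h5 := hupper (p * q + 1) hn1N
    rw [he] at h5 ⊢
    exact step_first ha (by omega) hco (by omega) hx hy1 hy2 hy3 (by omega)
  obtain ⟨y', hy1', hy2'⟩ := hfirst
  have hall : ∀ k, p * q + 1 + k ≤ N →
      Miss b (S (p * q + 1 + k)) y' ∧ Miss b (S (p * q + 1 + k)) (y' + a) := by
    intro k
    induction k with
    | zero => intro _; exact ⟨hy1', hy2'⟩
    | succ k ih =>
      intro hk
      obtain ⟨g1, g2⟩ := ih (by omega)
      obtain ⟨x, hx, he⟩ := hstep (p * q + 1 + k)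
      have h5 := hupper (p * q + 1 + k + 1) hk
      have h6 := hlower (p * q + 1 + k) (by omega)
      have e : p * q + 1 + (k + 1) = p * q + 1 + k + 1 := by ring
      rw [e]
      rw [he] at h5 ⊢
      exact step_next ha hb hx g1 g2 (by omega)
  obtain ⟨k, hk⟩ := Nat.exists_eq_add_of_le hn1N
  have hlast := (hall k (by omega)).1
  rw [← hk] at hlast
  have h7 := planar_bound ha hb hco hlast
  rw [hcard] at h7
  have h8 := hupper N le_rfl
  have h9 : 4 * (ch (b : ℤ) (S N) * ch (a : ℤ) (S N)) ≤
      (ch (a : ℤ) (S N) + ch (b : ℤ) (S N)) ^ 2 := by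
    zify
    nlinarith [sq_nonneg ((ch (a : ℤ) (S N) : ℤ) - ch (b : ℤ) (S N))]
  have h10 : (ch (a : ℤ) (S N) + ch (b : ℤ) (S N)) ^ 2 ≤ (a + b) ^ 2 :=
    Nat.pow_le_pow_left h8 2
  omega

end Pool.Agent.Lib.MP_602b76_co_Two
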