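import Pool.Agent.Lib.MP_602b76_co_Two.Chains

/-!
# Two generators on the integers: the planar case

A finite set which misses a class modulo `b` is a planar set: its points are
`c + i * a + j * b` with `1 ≤ i < b`, the step `a` changes `i` and the step `b` changes `j`.
-/

namespace Pool.Agent.Lib.MP_602b76_co_Two

open Finset

/-- The column of `x`. -/
def ix (A c : ℤ) (b : ℕ) (x : ℤ) : ℤ := ((x - c) * A) % (b : ℤ)

/-- The row of `x`. -/
def jx (A c : ℤ) (a b : ℕ) (x : ℤ) : ℤ := (x - c - ix A c b x * a) / (b : ℤ)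

variable {A c : ℤ} {a b : ℕ}

theorem ix_nonneg (hb : 0 < b) (x : ℤ) : 0 ≤ ix A c b x :=
  Int.emod_nonneg _ (by positivity)

theorem ix_lt (hb : 0 < b) (x : ℤ) : ix A c b x < b :=
  Int.emod_lt_of_pos _ (by exact_mod_cast hb)

/-- `A` is inverse to `a` modulo `b`. -/
def Inv (A : ℤ) (a b : ℕ) : Prop := (b : ℤ) ∣ (a : ℤ) * A - 1

theorem exists_inv (h : Nat.Coprime a b) : ∃ A : ℤ, Inv A a b := by
  refine ⟨Nat.gcdA a b, ?_⟩
  have h1 := Nat.gcd_eq_gcd_ab a b
  rw [Nat.Coprime.gcd_eq_one h] at h1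
  refine ⟨-(Nat.gcdB a b), ?_⟩
  push_cast at h1
  linarith

theorem repr_eq (hA : Inv A a b) (x : ℤ) :
    x = c + ix A c b x * a + jx A c a b x * b := by
  have h1 : (b : ℤ) ∣ x - c - ix A c b x * a := by
    have h2 : (b : ℤ) ∣ (x - c) * A - ix A c b x := by
      unfold ix
      exact Int.dvd_self_sub_emod
    have e : x - c - ix A c b x * a =
        ((x - c) * A - ix A c b x) * a - (x - c) * ((a : ℤ) * A - 1) := by ring
    rw [e]
    exact dvd_sub (Dvd.dvd.mul_right h2 _) (Dvd.dvd.mul_left hA _)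
  have h3 : jx A c a b x * b = x - c - ix A c b x * a := by
    unfold jx
    exact Int.ediv_mul_cancel h1
  linarith

theorem ix_repr (hA : Inv A a b) {i j : ℤ} (hi : 0 ≤ i) (hib : i < b) :
    ix A c b (c + i * a + j * b) = i := by
  unfold ix
  have h1 : (c + i * a + j * b - c) * A % (b : ℤ) = i % (b : ℤ) := by
    apply Int.emod_eq_emod_iff_emod_sub_eq_zero.2
    apply Int.emod_eq_zero_of_dvd
    have e : (c + i * a + j * b - c) * A - i = i * ((a : ℤ) * A - 1) + (b : ℤ) * (j * A) := by
      ring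
    rw [e]
    exact dvd_add (Dvd.dvd.mul_left hA _) (Dvd.intro _ rfl)
  rw [h1]
  exact Int.emod_eq_of_lt hi hib

theorem jx_repr (hb : 0 < b) (hA : Inv A a b) {i j : ℤ} (hi : 0 ≤ i) (hib : i < b) :
    jx A c a b (c + i * a + j * b) = j := by
  unfold jx
  rw [ix_repr hA hi hib]
  have : c + i * (a : ℤ) + j * b - c - i * a = j * b := by ring
  rw [this]
  exact Int.mul_ediv_cancel _ (by positivity)

theorem ix_eq_zero (hA : Inv A a b) {x : ℤ} (h : ix A c b x = 0) : (b : ℤ) ∣ x - c := by
  have := repr_eq (c := c) hA x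
  rw [h] at this
  exact ⟨jx A c a b x, by linarith⟩

theorem ix_add_b (hb : 0 < b) (hA : Inv A a b) (x : ℤ) : ix A c b (x + b) = ix A c b x := by
  have h := repr_eq (c := c) hA x
  have e : x + b = c + ix A c b x * a + (jx A c a b x + 1) * b := by
    rw [add_mul]; linarith
  conv_lhs => rw [e]
  exact ix_repr hA (ix_nonneg hb x) (ix_lt hb x)

/-- Inside a set missing the class of `c`, the step `a` goes to the next column. -/
theorem step_a (hb : 0 < b) (hA : Inv A a b) {S : Finset ℤ} (hm : Miss b S c) {x : ℤ}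
    (hxa : x + a ∈ S) : ix A c b (x + a) = ix A c b x + 1 ∧ jx A c a b (x + a) = jx A c a b x := by
  have h := repr_eq (c := c) hA x
  have h0 := ix_nonneg (A := A) (c := c) hb x
  have h1 := ix_lt (A := A) (c := c) hb x
  have h2 : ix A c b x + 1 < b := by
    by_contra hc
    have h3 : ix A c b x + 1 = b := by omega
    apply hm _ hxa
    refine ⟨a + jx A c a b x, ?_⟩
    have h4 : (x : ℤ) = c + ((b : ℤ) - 1) * a + jx A c a b x * b := by
      conv_lhs => rw [h]
      have : ix A c b x = (b : ℤ) - 1 := by omega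
      rw [this]
    linear_combination h4
  have e : x + a = c + (ix A c b x + 1) * a + jx A c a b x * b := by
    rw [add_mul]; linarith
  constructor
  · conv_lhs => rw [e]
    exact ix_repr hA (by omega) h2
  · conv_lhs => rw [e]
    exact jx_repr hb hA (by omega) h2

/-- The numbers of columns and rows of a planar set. -/
theorem cols_le (hb : 0 < b) (hA : Inv A a b) (S : Finset ℤ) :
    (S.image (ix A c b)).card ≤ ch (b : ℤ) S :=
  image_le_ch (by exact_mod_cast hb) S _ (fun x _ _ => ix_add_b hb hA x)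

theorem rows_le (ha : 0 < a) (hb : 0 < b) (hA : Inv A a b) {S : Finset ℤ} (hm : Miss b S c) :
    (S.image (jx A c a b)).card ≤ ch (a : ℤ) S :=
  image_le_ch (by exact_mod_cast ha) S _ (fun _ _ hxa => (step_a hb hA hm hxa).2)

theorem subset_prod (hA : Inv A a b) (S : Finset ℤ) :
    S ⊆ ((S.image (ix A c b)) ×ˢ (S.image (jx A c a b))).image
      (fun p => c + p.1 * a + p.2 * b) := by
  intro x hx
  rw [mem_image]
  refine ⟨(ix A c b x, jx A c a b x), ?_, (repr_eq hA x).symm⟩
  rw [mem_product]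
  exact ⟨mem_image_of_mem _ hx, mem_image_of_mem _ hx⟩

theorem card_le_prod (hA : Inv A a b) (S : Finset ℤ) :
    S.card ≤ (S.image (ix A c b)).card * (S.image (jx A c a b)).card := by
  have h := card_le_card (subset_prod (c := c) hA S)
  refine le_trans h (le_trans card_image_le ?_)
  rw [card_product]

/-- The planar bound. -/
theorem planar_bound (ha : 0 < a) (hb : 0 < b) (hco : Nat.Coprime a b) {S : Finset ℤ} {c : ℤ}
    (hm : Miss b S c) : S.card ≤ ch (b : ℤ) S * ch (a : ℤ) S := by
  obtain ⟨A, hA⟩ := exists_inv hco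
  exact le_trans (card_le_prod (c := c) hA S) (Nat.mul_le_mul (cols_le hb hA S)
    (rows_le ha hb hA hm))

/-- **Lower bound.** Either there are at least `a + b` chains, or `4 |S|` is at most the square of
the number of chains. -/
theorem lower_bound (ha : 0 < a) (hb : 0 < b) (hco : Nat.Coprime a b) (S : Finset ℤ) :
    a + b ≤ ch (a : ℤ) S + ch (b : ℤ) S ∨ 4 * S.card ≤ (ch (a : ℤ) S + ch (b : ℤ) S) ^ 2 := by
  by_cases h1 : ∃ c, Miss b S c
  · obtain ⟨c, hc⟩ := h1
    right
    have := planar_bound ha hb hco hc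
    zify at this ⊢
    nlinarith [sq_nonneg ((ch (a : ℤ) S : ℤ) - ch (b : ℤ) S)]
  · by_cases h2 : ∃ c, Miss a S c
    · obtain ⟨c, hc⟩ := h2
      right
      have := planar_bound hb ha hco.symm hc
      zify at this ⊢
      nlinarith [sq_nonneg ((ch (a : ℤ) S : ℤ) - ch (b : ℤ) S)]
    · left
      push Not at h1 h2
      exact add_le_add (le_ch_of_all ha h2) (le_ch_of_all hb h1)

end Pool.Agent.Lib.MP_602b76_co_Two
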