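import Pool.Agent.Lib.MP_602b76_co_Two.Neg

/-!
# Two generators on the integers: a nested sequence when `b ≤ a + 4`
-/

namespace Pool.Agent.Lib.MP_602b76_co_Two

open Finset

variable {a b : ℕ}

/-- A certificate of optimality. -/
def Good (a b : ℕ) (S : Finset ℤ) : Prop :=
  ∃ t : ℕ, ch (a : ℤ) S + ch (b : ℤ) S ≤ t + 1 ∧ t + 1 ≤ a + b ∧ t ^ 2 < 4 * S.card

theorem Good.opt (ha : 0 < a) (hb : 0 < b) (hco : Nat.Coprime a b) {S : Finset ℤ}
    (h : Good a b S) : TOpt a b S := by
  obtain ⟨t, h1, h2, h3⟩ := h
  intro S' hS'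
  rcases lower_bound ha hb hco S' with h | h
  · omega
  · rw [hS'] at h
    have : t < ch (a : ℤ) S' + ch (b : ℤ) S' := lt_of_pow_lt_pow_left₀ 2 (by omega) (by omega)
    omega

theorem TOpt_empty (a b : ℕ) : TOpt a b ∅ := by
  intro S' _
  simp [ch]

/-- One new point with an optimal result. -/
def Step (a b : ℕ) (S S' : Finset ℤ) : Prop := ∃ x, x ∉ S ∧ S' = insert x S ∧ Good a b S'

/-- Several new points, all intermediate sets being optimal. -/
def Reach (a b : ℕ) : Finset ℤ → Finset ℤ → Prop := Relation.ReflTransGen (Step a b)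

theorem ch_insert_le {a : ℤ} (ha : a ≠ 0) {S : Finset ℤ} {x : ℤ} (hx : x ∉ S) :
    ch a (insert x S) ≤ ch a S + 1 := by
  have := ch_insert ha hx
  omega

theorem ch_insert_left {a : ℤ} (ha : a ≠ 0) {S : Finset ℤ} {x : ℤ} (hx : x ∉ S)
    (h : x - a ∈ S) : ch a (insert x S) ≤ ch a S := by
  have := ch_insert ha hx
  rw [if_pos h] at this
  omega

theorem ch_insert_right {a : ℤ} (ha : a ≠ 0) {S : Finset ℤ} {x : ℤ} (hx : x ∉ S)
    (h : x + a ∈ S) : ch a (insert x S) ≤ ch a S := by
  have := ch_insert ha hx
  rw [if_pos h] at this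
  omega

theorem ch_insert_both {a : ℤ} (ha : a ≠ 0) {S : Finset ℤ} {x : ℤ} (hx : x ∉ S)
    (h : x - a ∈ S) (h' : x + a ∈ S) : ch a (insert x S) + 1 ≤ ch a S := by
  have := ch_insert ha hx
  rw [if_pos h, if_pos h'] at this
  omega

theorem not_mem_Rect (hb : 0 < b) (hco : Nat.Coprime a b) {p q i j : ℕ} (hp : p ≤ b) (hi : i < b)
    (h : p ≤ i ∨ q ≤ j) : (i : ℤ) * a + (j : ℤ) * b ∉ Rect a b p q := by
  intro hm
  obtain ⟨i', j', hi', hj', he⟩ := mem_Rect.1 hm
  have := coord_unique (a := a) hb hco (i := (i' : ℤ)) (i' := (i : ℤ)) (j := (j' : ℤ))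
    (j' := (j : ℤ)) (by omega) (by omega) he
  obtain ⟨h1, h2⟩ := this
  omega

/-- A new column. -/
theorem col_reach (ha : 0 < a) (hb : 0 < b) (hco : Nat.Coprime a b) {p q : ℕ} (hp : 0 < p)
    (h1 : p ≤ q + 1) (h2 : q ≤ p + 1) (hpb : p + 1 ≤ b) (hm : p + q + 1 ≤ a + b) :
    Reach a b (Rect a b p q) (Rect a b (p + 1) q) := by
  have key : ∀ s : ℕ, s ≤ q → ∃ S : Finset ℤ,
      S = Rect a b p q ∪ (range s).image (fun j : ℕ => (p : ℤ) * a + (j : ℤ) * b) ∧
      Reach a b (Rect a b p q) S ∧ S.card = p * q + s ∧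
      ch (a : ℤ) S + ch (b : ℤ) S ≤ p + q + 1 ∧
      (s = 0 → ch (a : ℤ) S + ch (b : ℤ) S ≤ p + q) := by
    intro s
    induction s with
    | zero =>
      intro _
      have g1 := ch_a_Rect (a := a) (b := b) (p := p) (q := q)
      have g2 := ch_b_Rect (a := a) (b := b) (p := p) (q := q)
      refine ⟨Rect a b p q, by simp, Relation.ReflTransGen.refl, ?_, by omega, fun _ => by omega⟩
      rw [card_Rect hb hco (by omega), add_zero]
    | succ s ih =>
      intro hs
      obtain ⟨S, hS, hr, hc, ht, ht0⟩ := ih (by omega)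
      obtain ⟨x, hxdef⟩ : ∃ x : ℤ, x = (p : ℤ) * a + (s : ℤ) * b := ⟨_, rfl⟩
      have hx : x ∉ S := by
        rw [hS, mem_union, not_or]
        constructor
        · rw [hxdef]
          exact not_mem_Rect hb hco (by omega) (by omega) (Or.inl le_rfl)
        · intro hm
          rw [mem_image] at hm
          obtain ⟨j, hj, he⟩ := hm
          rw [mem_range] at hj
          rw [hxdef] at he
          have : ((j : ℤ) - s) * b = 0 := by linear_combination he
          rcases mul_eq_zero.1 this with h | h
          · omega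
          · omega
      have hxa : x - a ∈ S := by
        rw [hS, mem_union]
        left
        rw [mem_Rect]
        refine ⟨p - 1, s, by omega, by omega, ?_⟩
        rw [hxdef, Nat.cast_sub (by omega)]
        push_cast
        ring
      have e1 := ch_insert_left (a := (a : ℤ)) (by positivity) hx hxa
      have e2 := ch_insert_le (a := (b : ℤ)) (by positivity) hx
      have e3 : ch (a : ℤ) (insert x S) + ch (b : ℤ) (insert x S) ≤ p + q + 1 := by
        by_cases hs0 : s = 0
        · have := ht0 hs0
          omega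
        · have hxb : x - b ∈ S := by
            rw [hS, mem_union]
            right
            rw [mem_image]
            refine ⟨s - 1, by rw [mem_range]; omega, ?_⟩
            rw [hxdef, Nat.cast_sub (by omega)]
            push_cast
            ring
          have e4 := ch_insert_left (a := (b : ℤ)) (by positivity) hx hxb
          omega
      have hcard : (insert x S).card = p * q + (s + 1) := by
        rw [card_insert_of_notMem hx, hc]
        ring
      refine ⟨insert x S, ?_, ?_, hcard, e3, by omega⟩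
      · rw [range_add_one, image_insert, hS, ← hxdef]
        ext y
        simp only [mem_insert, mem_union]
        tauto
      · refine Relation.ReflTransGen.tail hr ⟨x, hx, rfl, p + q, e3, hm, ?_⟩
        rw [hcard]
        obtain h | h | h : p = q ∨ p = q + 1 ∨ q = p + 1 := by omega
        · rw [h]; nlinarith
        · rw [h]; nlinarith
        · rw [h]; nlinarith
  obtain ⟨S, hS, hr, _, _, _⟩ := key q le_rfl
  have : S = Rect a b (p + 1) q := by
    rw [hS]
    ext y
    rw [mem_union, mem_Rect, mem_Rect, mem_image]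
    constructor
    · rintro (⟨i, j, hi, hj, h⟩ | ⟨j, hj, h⟩)
      · exact ⟨i, j, by omega, hj, h⟩
      · exact ⟨p, j, by omega, by rwa [mem_range] at hj, h⟩
    · rintro ⟨i, j, hi, hj, h⟩
      by_cases hip : i = p
      · right
        exact ⟨j, by rwa [mem_range], by rw [← hip]; exact h⟩
      · left
        exact ⟨i, j, by omega, hj, h⟩
  rw [← this]
  exact hr

/-- A new row. -/
theorem row_reach (ha : 0 < a) (hb : 0 < b) (hco : Nat.Coprime a b) {p q : ℕ}
    (hq : 0 < q) (h1 : p ≤ q + 1) (h2 : q ≤ p + 1) (hpb : p ≤ b) (hm : p + q + 1 ≤ a + b) :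
    Reach a b (Rect a b p q) (Rect a b p (q + 1)) := by
  have key : ∀ s : ℕ, s ≤ p → ∃ S : Finset ℤ,
      S = Rect a b p q ∪ (range s).image (fun i : ℕ => (i : ℤ) * a + (q : ℤ) * b) ∧
      Reach a b (Rect a b p q) S ∧ S.card = p * q + s ∧
      ch (a : ℤ) S + ch (b : ℤ) S ≤ p + q + 1 ∧
      (s = 0 → ch (a : ℤ) S + ch (b : ℤ) S ≤ p + q) := by
    intro s
    induction s with
    | zero =>
      intro _
      have g1 := ch_a_Rect (a := a) (b := b) (p := p) (q := q)
      have g2 := ch_b_Rect (a := a) (b := b) (p := p) (q := q)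
      refine ⟨Rect a b p q, by simp, Relation.ReflTransGen.refl, ?_, by omega, fun _ => by omega⟩
      rw [card_Rect hb hco (by omega), add_zero]
    | succ s ih =>
      intro hs
      obtain ⟨S, hS, hr, hc, ht, ht0⟩ := ih (by omega)
      obtain ⟨x, hxdef⟩ : ∃ x : ℤ, x = (s : ℤ) * a + (q : ℤ) * b := ⟨_, rfl⟩
      have hx : x ∉ S := by
        rw [hS, mem_union, not_or]
        constructor
        · rw [hxdef]
          exact not_mem_Rect hb hco (by omega) (by omega) (Or.inr le_rfl)
        · intro hm
          rw [mem_image] at hm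
          obtain ⟨i, hi, he⟩ := hm
          rw [mem_range] at hi
          rw [hxdef] at he
          have : ((i : ℤ) - s) * a = 0 := by linear_combination he
          rcases mul_eq_zero.1 this with h | h
          · omega
          · omega
      have hxb : x - b ∈ S := by
        rw [hS, mem_union]
        left
        rw [mem_Rect]
        refine ⟨s, q - 1, by omega, by omega, ?_⟩
        rw [hxdef, Nat.cast_sub (by omega)]
        push_cast
        ring
      have e1 := ch_insert_left (a := (b : ℤ)) (by positivity) hx hxb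
      have e2 := ch_insert_le (a := (a : ℤ)) (by positivity) hx
      have e3 : ch (a : ℤ) (insert x S) + ch (b : ℤ) (insert x S) ≤ p + q + 1 := by
        by_cases hs0 : s = 0
        · have := ht0 hs0
          omega
        · have hxa : x - a ∈ S := by
            rw [hS, mem_union]
            right
            rw [mem_image]
            refine ⟨s - 1, by rw [mem_range]; omega, ?_⟩
            rw [hxdef, Nat.cast_sub (by omega)]
            push_cast
            ring
          have e4 := ch_insert_left (a := (a : ℤ)) (by positivity) hx hxa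
          omega
      have hcard : (insert x S).card = p * q + (s + 1) := by
        rw [card_insert_of_notMem hx, hc]
        ring
      refine ⟨insert x S, ?_, ?_, hcard, e3, by omega⟩
      · rw [range_add_one, image_insert, hS, ← hxdef]
        ext y
        simp only [mem_insert, mem_union]
        tauto
      · refine Relation.ReflTransGen.tail hr ⟨x, hx, rfl, p + q, e3, hm, ?_⟩
        rw [hcard]
        obtain h | h | h : p = q ∨ p = q + 1 ∨ q = p + 1 := by omega
        · rw [h]; nlinarith
        · rw [h]; nlinarith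
        · rw [h]; nlinarith
  obtain ⟨S, hS, hr, _, _, _⟩ := key p le_rfl
  have : S = Rect a b p (q + 1) := by
    rw [hS]
    ext y
    rw [mem_union, mem_Rect, mem_Rect, mem_image]
    constructor
    · rintro (⟨i, j, hi, hj, h⟩ | ⟨i, hi, h⟩)
      · exact ⟨i, j, hi, by omega, h⟩
      · exact ⟨i, q, by rwa [mem_range] at hi, by omega, h⟩
    · rintro ⟨i, j, hi, hj, h⟩
      by_cases hjq : j = q
      · right
        exact ⟨i, by rwa [mem_range], by rw [← hjq]; exact h⟩
      · left
        exact ⟨i, j, hi, by omega, h⟩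
  rw [← this]
  exact hr

/-- Squares. -/
theorem square_reach (ha : 0 < a) (hab : a < b) (hco : Nat.Coprime a b) (k : ℕ)
    (hk : 2 * (k + 1) ≤ a + b) : Reach a b ∅ (Rect a b (k + 1) (k + 1)) := by
  have hb : 0 < b := by omega
  induction k with
  | zero =>
    refine Relation.ReflTransGen.single ⟨0, by simp, ?_, 1, ?_, by omega, ?_⟩
    · ext y
      rw [mem_Rect]
      constructor
      · rintro ⟨i, j, hi, hj, h⟩
        have hi0 : i = 0 := by omega
        have hj0 : j = 0 := by omega
        subst hi0 hj0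
        simp at h
        simp [← h]
      · intro h
        simp at h
        exact ⟨0, 0, by omega, by omega, by simp [h]⟩
    · have g1 := ch_a_Rect (a := a) (b := b) (p := 0 + 1) (q := 0 + 1)
      have g2 := ch_b_Rect (a := a) (b := b) (p := 0 + 1) (q := 0 + 1)
      omega
    · rw [card_Rect hb hco (by omega)]
      norm_num
  | succ k ih =>
    have h1 := ih (by omega)
    have h2 := col_reach ha hb hco (p := k + 1) (q := k + 1) (by omega) (by omega) (by omega)
      (by omega) (by omega)
    have h3 := row_reach ha hb hco (p := k + 1 + 1) (q := k + 1) (by omega) (by omega) (by omega)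
      (by omega) (by omega)
    exact (h1.trans h2).trans h3

/-- The largest planar rectangle. -/
theorem rect_reach (ha : 0 < a) (hab : a < b) (hco : Nat.Coprime a b) {p q : ℕ}
    (hp : p = (a + b) / 2) (hq : q = a + b - 1 - p) : Reach a b ∅ (Rect a b p q) := by
  obtain ⟨k, hk⟩ : ∃ k, q = k + 1 := ⟨q - 1, by omega⟩
  have h1 := square_reach ha hab hco k (by omega)
  obtain h | h : p = q ∨ p = q + 1 := by omega
  · rw [h, hk]; exact h1
  · have h2 := col_reach ha (by omega) hco (p := k + 1) (q := k + 1) (by omega) (by omega)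
      (by omega) (by omega) (by omega)
    rw [h, hk]
    exact h1.trans h2

/-- Second phase: the joining cells. -/
theorem join_reach (ha : 0 < a) (hab : a < b) (hba : b ≤ a + 4) (hco : Nat.Coprime a b) {p q : ℕ}
    (hp : p = (a + b) / 2) (hq : q = a + b - 1 - p) :
    ∃ S : Finset ℤ, Reach a b ∅ S ∧ ch (a : ℤ) S + ch (b : ℤ) S ≤ a + b ∧
      (a + b - 1) ^ 2 < 4 * S.card ∧ Rect a b p q ⊆ S ∧ ∀ k : ℕ, k < b → (k : ℤ) * a ∈ S := by
  have hb : 0 < b := by omega
  have hr := rect_reach ha hab hco hp hq
  have g1 := ch_a_Rect (a := a) (b := b) (p := p) (q := q)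
  have g2 := ch_b_Rect (a := a) (b := b) (p := p) (q := q)
  have hpq : p + q = a + b - 1 := by omega
  have hsq : (a + b - 1) ^ 2 ≤ 4 * (p * q) + 1 := by
    rw [← hpq]
    obtain h | h : p = q ∨ p = q + 1 := by omega
    · rw [h]; nlinarith
    · rw [h]; nlinarith
  -- first cell
  obtain ⟨x, hxdef⟩ : ∃ x : ℤ, x = (p : ℤ) * a := ⟨_, rfl⟩
  have hx : x ∉ Rect a b p q := by
    have := not_mem_Rect (a := a) (b := b) hb hco (p := p) (q := q) (i := p) (j := 0) (by omega)
      (by omega) (Or.inl le_rfl)
    rw [hxdef]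
    simpa using this
  have hxa : x - a ∈ Rect a b p q := by
    rw [mem_Rect]
    refine ⟨p - 1, 0, by omega, by omega, ?_⟩
    rw [hxdef, Nat.cast_sub (by omega)]
    push_cast
    ring
  have e1 := ch_insert_left (a := (a : ℤ)) (by positivity) hx hxa
  have e2 := ch_insert_le (a := (b : ℤ)) (by positivity) hx
  have hc1 : (insert x (Rect a b p q)).card = p * q + 1 := by
    rw [card_insert_of_notMem hx, card_Rect hb hco (by omega)]
  have hr1 : Reach a b ∅ (insert x (Rect a b p q)) := by
    refine hr.tail ⟨x, hx, rfl, a + b - 1, by omega, by omega, ?_⟩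
    rw [hc1]
    omega
  have hmem : ∀ k : ℕ, k < p → (k : ℤ) * a ∈ Rect a b p q := by
    intro k hk
    rw [mem_Rect]
    exact ⟨k, 0, hk, by omega, by simp⟩
  by_cases hone : p + 1 = b
  · refine ⟨_, hr1, by omega, by rw [hc1]; omega, subset_insert _ _, ?_⟩
    intro k hk
    by_cases hkp : k = p
    · rw [hkp, ← hxdef]
      exact mem_insert_self _ _
    · exact mem_insert_of_mem (hmem k (by omega))
  · -- second cell
    have htwo : p + 2 = b := by omega
    have hqa : a < q := by omega
    obtain ⟨z, hzdef⟩ : ∃ z : ℤ, z = ((p + 1 : ℕ) : ℤ) * a := ⟨_, rfl⟩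
    have hz : z ∉ insert x (Rect a b p q) := by
      rw [mem_insert, not_or]
      constructor
      · rw [hzdef, hxdef]
        push_cast
        intro h
        have : (a : ℤ) = 0 := by linear_combination h
        omega
      · have := not_mem_Rect (a := a) (b := b) hb hco (p := p) (q := q) (i := p + 1) (j := 0)
          (by omega) (by omega) (Or.inl (by omega))
        rw [hzdef]
        simpa using this
    have hza : z - a ∈ insert x (Rect a b p q) := by
      have : z - a = x := by rw [hzdef, hxdef]; push_cast; ring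
      rw [this]
      exact mem_insert_self _ _
    have hza' : z + a ∈ insert x (Rect a b p q) := by
      apply mem_insert_of_mem
      rw [mem_Rect]
      refine ⟨0, a, by omega, hqa, ?_⟩
      rw [hzdef, ← htwo]
      push_cast
      ring
    have e3 := ch_insert_both (a := (a : ℤ)) (by positivity) hz hza hza'
    have e4 := ch_insert_le (a := (b : ℤ)) (by positivity) hz
    have hc2 : (insert z (insert x (Rect a b p q))).card = p * q + 2 := by
      rw [card_insert_of_notMem hz, hc1]
    refine ⟨insert z (insert x (Rect a b p q)), ?_, by omega, by rw [hc2]; omega, ?_, ?_⟩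
    · refine hr1.tail ⟨z, hz, rfl, a + b - 1, by omega, by omega, ?_⟩
      rw [hc2]
      omega
    · exact (subset_insert _ _).trans (subset_insert _ _)
    · intro k hk
      by_cases hkp : k = p
      · rw [hkp, ← hxdef]
        exact mem_insert_of_mem (mem_insert_self _ _)
      · by_cases hkp' : k = p + 1
        · rw [hkp', ← hzdef]
          exact mem_insert_self _ _
        · exact mem_insert_of_mem (mem_insert_of_mem (hmem k (by omega)))

/-- The run of `b` consecutive integers. -/
theorem run_mem (ha : 0 < a) (hab : a < b) (hba : b ≤ a + 4) (hco : Nat.Coprime a b) {p q : ℕ}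
    (hp : p = (a + b) / 2) (hq : q = a + b - 1 - p) {S : Finset ℤ} (hR : Rect a b p q ⊆ S)
    (hk : ∀ k : ℕ, k < b → (k : ℤ) * a ∈ S) :
    Ico (((a : ℤ) - 1) * (b - 1)) (((a : ℤ) - 1) * (b - 1) + b) ⊆ S := by
  intro x hx
  rw [mem_Ico] at hx
  obtain ⟨hx1, hx2⟩ := hx
  obtain ⟨A, hA⟩ := exists_inv hco.symm
  have hrep := repr_eq (c := 0) hA x
  have hj0 := ix_nonneg (A := A) (c := 0) ha x
  have hj1 := ix_lt (A := A) (c := 0) ha x
  set j := ix A 0 a x with hj
  set i := jx A 0 b a x with hi
  have ha' : (0 : ℤ) < a := by exact_mod_cast ha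
  have hab' : (a : ℤ) < b := by exact_mod_cast hab
  have hi0 : 0 ≤ i := by
    by_contra hneg
    have h1 : i ≤ -1 := by omega
    have h2 : i * a ≤ -1 * a := mul_le_mul_of_nonneg_right h1 ha'.le
    have h3 : j * b ≤ (a - 1) * b := mul_le_mul_of_nonneg_right (by omega) (by omega)
    nlinarith
  obtain ⟨i', hi'⟩ := Int.eq_ofNat_of_zero_le hi0
  obtain ⟨j', hj'⟩ := Int.eq_ofNat_of_zero_le hj0
  have hx3 : x = (i' : ℤ) * a + (j' : ℤ) * b := by
    rw [hrep, hi', hj']; ring
  by_cases hjz : j' = 0
  · have h1 : (i' : ℤ) < b := by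
      by_contra hge
      push Not at hge
      have h2 : (b : ℤ) * a ≤ i' * a := mul_le_mul_of_nonneg_right hge ha'.le
      rw [hx3, hjz] at hx2
      push_cast at hx2
      nlinarith
    have := hk i' (by exact_mod_cast h1)
    rw [hx3, hjz]
    simpa using this
  · apply hR
    rw [mem_Rect]
    refine ⟨i', j', ?_, by omega, hx3.symm⟩
    by_contra hge
    push Not at hge
    have h1 : (p : ℤ) * a ≤ i' * a := mul_le_mul_of_nonneg_right (by exact_mod_cast hge) ha'.le
    have h2 : (1 : ℤ) * b ≤ j' * b := mul_le_mul_of_nonneg_right (by omega) (by omega)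
    have h3 : (b : ℤ) ≤ p + 2 := by omega
    have h4 : ((b : ℤ) - 2) * a ≤ p * a := mul_le_mul_of_nonneg_right (by omega) ha'.le
    rw [hx3] at hx2
    nlinarith

/-- Filling upwards. -/
theorem fill_up (ha : 0 < a) (hab : a < b) {S : Finset ℤ} {u w : ℤ} (huw : u + b ≤ w)
    (hsub : Ico u w ⊆ S) (ht : ch (a : ℤ) S + ch (b : ℤ) S ≤ a + b)
    (hc : (a + b - 1) ^ 2 < 4 * S.card) (k : ℕ) :
    Reach a b S (S ∪ Ico w (w + k)) ∧
      ch (a : ℤ) (S ∪ Ico w (w + k)) + ch (b : ℤ) (S ∪ Ico w (w + k)) ≤ a + b := by
  induction k with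
  | zero => simpa using ⟨Relation.ReflTransGen.refl, ht⟩
  | succ k ih =>
    obtain ⟨h1, h2⟩ := ih
    obtain ⟨T, hT⟩ : ∃ T, T = S ∪ Ico w (w + k) := ⟨_, rfl⟩
    have hins : S ∪ Ico w (w + (k + 1 : ℕ)) = insert (w + (k : ℤ)) T := by
      rw [hT]
      ext y
      simp only [mem_union, mem_Ico, mem_insert]
      push_cast
      constructor
      · rintro (h | h)
        · exact Or.inr (Or.inl h)
        · by_cases hy : y = w + k
          · exact Or.inl hy
          · exact Or.inr (Or.inr (by omega))
      · rintro (h | h | h)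
        · right; omega
        · exact Or.inl h
        · right; omega
    rw [← hT] at h1 h2
    rw [hins]
    by_cases hmem : w + (k : ℤ) ∈ T
    · rw [insert_eq_of_mem hmem]
      exact ⟨h1, h2⟩
    · have hin : ∀ y, u ≤ y → y < w + k → y ∈ T := by
        intro y hy1 hy2
        rw [hT, mem_union]
        by_cases hyw : y < w
        · left; exact hsub (by rw [mem_Ico]; exact ⟨hy1, hyw⟩)
        · right; rw [mem_Ico]; omega
      have e1 := ch_insert_left (a := (a : ℤ)) (by positivity) hmem (hin _ (by omega) (by omega))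
      have e2 := ch_insert_left (a := (b : ℤ)) (by omega) hmem (hin _ (by omega) (by omega))
      refine ⟨h1.tail ⟨_, hmem, rfl, a + b - 1, by omega, by omega, ?_⟩, by omega⟩
      have : S.card ≤ (insert (w + (k : ℤ)) T).card := by
        apply card_le_card
        intro y hy
        rw [hT]
        exact mem_insert_of_mem (mem_union_left _ hy)
      omega

/-- Filling downwards. -/
theorem fill_down (ha : 0 < a) (hab : a < b) {S : Finset ℤ} {u w : ℤ} (huw : u + b ≤ w)
    (hsub : Ico u w ⊆ S) (ht : ch (a : ℤ) S + ch (b : ℤ) S ≤ a + b)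
    (hc : (a + b - 1) ^ 2 < 4 * S.card) (k : ℕ) :
    Reach a b S (S ∪ Ico (u - k) u) ∧
      ch (a : ℤ) (S ∪ Ico (u - k) u) + ch (b : ℤ) (S ∪ Ico (u - k) u) ≤ a + b := by
  induction k with
  | zero => simpa using ⟨Relation.ReflTransGen.refl, ht⟩
  | succ k ih =>
    obtain ⟨h1, h2⟩ := ih
    obtain ⟨T, hT⟩ : ∃ T, T = S ∪ Ico (u - k) u := ⟨_, rfl⟩
    have hins : S ∪ Ico (u - (k + 1 : ℕ)) u = insert (u - (k : ℤ) - 1) T := by
      rw [hT]
      ext y
      simp only [mem_union, mem_Ico, mem_insert]
      push_cast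
      constructor
      · rintro (h | h)
        · exact Or.inr (Or.inl h)
        · by_cases hy : y = u - k - 1
          · exact Or.inl hy
          · exact Or.inr (Or.inr (by omega))
      · rintro (h | h | h)
        · right; omega
        · exact Or.inl h
        · right; omega
    rw [← hT] at h1 h2
    rw [hins]
    by_cases hmem : u - (k : ℤ) - 1 ∈ T
    · rw [insert_eq_of_mem hmem]
      exact ⟨h1, h2⟩
    · have hin : ∀ y, u - k ≤ y → y < w → y ∈ T := by
        intro y hy1 hy2
        rw [hT, mem_union]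
        by_cases hyw : u ≤ y
        · left; exact hsub (by rw [mem_Ico]; exact ⟨hyw, hy2⟩)
        · right; rw [mem_Ico]; omega
      have e1 := ch_insert_right (a := (a : ℤ)) (by positivity) hmem (hin _ (by omega) (by omega))
      have e2 := ch_insert_right (a := (b : ℤ)) (by omega) hmem (hin _ (by omega) (by omega))
      refine ⟨h1.tail ⟨_, hmem, rfl, a + b - 1, by omega, by omega, ?_⟩, by omega⟩
      have : S.card ≤ (insert (u - (k : ℤ) - 1) T).card := by
        apply card_le_card
        intro y hy
        rw [hT]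
        exact mem_insert_of_mem (mem_union_left _ hy)
      omega

/-- An interval is reached. -/
theorem interval_reach (ha : 0 < a) (hab : a < b) (hba : b ≤ a + 4) (hco : Nat.Coprime a b) :
    ∃ u w : ℤ, u ≤ w ∧ Reach a b ∅ (Ico u w) ∧ (a + b - 1) ^ 2 < 4 * (Ico u w).card := by
  obtain ⟨p, hp⟩ : ∃ p, p = (a + b) / 2 := ⟨_, rfl⟩
  obtain ⟨q, hq⟩ : ∃ q, q = a + b - 1 - p := ⟨_, rfl⟩
  obtain ⟨S, h1, h2, h3, h4, h5⟩ := join_reach ha hab hba hco hp hq
  have h6 := run_mem ha hab hba hco hp hq h4 h5
  obtain ⟨u, hu⟩ : ∃ u : ℤ, u = ((a : ℤ) - 1) * (b - 1) := ⟨_, rfl⟩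
  rw [← hu] at h6
  -- a bound for `S`
  obtain ⟨K, hK⟩ : ∃ K : ℕ, ∀ x ∈ S, u - K ≤ x ∧ x < u + b + K := by
    obtain ⟨K, hK⟩ := (S.image (fun x => (x - u).natAbs)).exists_le
    refine ⟨K, fun x hx => ?_⟩
    have := hK _ (mem_image_of_mem _ hx)
    omega
  have g1 := fill_up ha hab (le_refl (u + b)) h6 h2 h3 K
  obtain ⟨T, hT⟩ : ∃ T, T = S ∪ Ico (u + b) (u + b + K) := ⟨_, rfl⟩
  rw [← hT] at g1
  have hsubT : S ⊆ T := by rw [hT]; exact subset_union_left
  have g2 := fill_down ha hab (le_refl (u + b)) (h6.trans hsubT) g1.2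
    (by have := card_le_card hsubT; omega) K
  have he : T ∪ Ico (u - K) u = Ico (u - K) (u + b + K) := by
    rw [hT]
    ext y
    simp only [mem_union, mem_Ico]
    constructor
    · rintro ((h | h) | h)
      · exact hK y h
      · omega
      · omega
    · rintro ⟨hy1, hy2⟩
      by_cases c1 : y < u
      · right; omega
      · by_cases c2 : y < u + b
        · left; left; exact h6 (by rw [mem_Ico]; omega)
        · left; right; omega
  rw [he] at g2
  refine ⟨u - K, u + b + K, by omega, (h1.trans g1.1).trans g2.1, ?_⟩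
  have : S.card ≤ (Ico (u - K) (u + b + K)).card := by
    apply card_le_card
    intro x hx
    rw [mem_Ico]
    exact hK x hx
  omega

end Pool.Agent.Lib.MP_602b76_co_Two
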