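import Pool.Agent.Lib.MP_602b76_co_Two.Planar

/-!
# Two generators on the integers: intervals and rectangles
-/

namespace Pool.Agent.Lib.MP_602b76_co_Two

open Finset

theorem ch_Ico_le (a : ℕ) (p q : ℤ) : ch (a : ℤ) (Ico p q) ≤ a := by
  unfold ch
  have h : ((Ico p q).filter (fun x => x + (a : ℤ) ∉ Ico p q)) ⊆ Ico (q - a) q := by
    intro x hx
    rw [mem_filter, mem_Ico, mem_Ico] at hx
    rw [mem_Ico]
    omega
  have h2 := card_le_card h
  rw [Int.card_Ico] at h2
  omega

theorem exists_interval (a b n : ℕ) :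
    ∃ S : Finset ℤ, S.card = n ∧ ch (a : ℤ) S + ch (b : ℤ) S ≤ a + b :=
  ⟨Ico 0 n, by simp, add_le_add (ch_Ico_le a 0 n) (ch_Ico_le b 0 n)⟩

/-- The rectangle of `p` columns and `q` rows. -/
def Rect (a b p q : ℕ) : Finset ℤ :=
  (range p ×ˢ range q).image (fun t => (t.1 : ℤ) * a + (t.2 : ℤ) * b)

theorem mem_Rect {a b p q : ℕ} {x : ℤ} :
    x ∈ Rect a b p q ↔ ∃ i j : ℕ, i < p ∧ j < q ∧ (i : ℤ) * a + (j : ℤ) * b = x := by
  unfold Rect
  rw [mem_image]
  constructor
  · rintro ⟨⟨i, j⟩, h, h'⟩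
    rw [mem_product, mem_range, mem_range] at h
    exact ⟨i, j, h.1, h.2, h'⟩
  · rintro ⟨i, j, hi, hj, h⟩
    exact ⟨(i, j), by rw [mem_product, mem_range, mem_range]; exact ⟨hi, hj⟩, h⟩

/-- Coordinates are unique as long as the columns are less than `b` apart. -/
theorem coord_unique {a b : ℕ} (hb : 0 < b) (hco : Nat.Coprime a b) {i i' j j' : ℤ}
    (hi : i - i' < b) (hi' : i' - i < b)
    (h : i * a + j * b = i' * a + j' * b) : i = i' ∧ j = j' := by
  have h1 : (b : ℤ) ∣ (i - i') * a := ⟨j' - j, by linear_combination h⟩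
  have h2 : (b : ℤ) ∣ i - i' := by
    have hc : IsCoprime (b : ℤ) (a : ℤ) := Nat.isCoprime_iff_coprime.2 hco.symm
    exact hc.dvd_of_dvd_mul_right h1
  have h3 : i - i' = 0 := by
    apply Int.eq_zero_of_abs_lt_dvd h2
    rw [abs_lt]
    constructor <;> linarith
  have h4 : i = i' := by linarith
  refine ⟨h4, ?_⟩
  rw [h4] at h
  have h5 : (j - j') * (b : ℤ) = 0 := by linear_combination h
  rcases mul_eq_zero.1 h5 with h6 | h6
  · linarith
  · exfalso
    have : (b : ℤ) > 0 := by exact_mod_cast hb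
    linarith

theorem card_Rect {a b p q : ℕ} (hb : 0 < b) (hco : Nat.Coprime a b) (hp : p ≤ b) :
    (Rect a b p q).card = p * q := by
  unfold Rect
  rw [card_image_of_injOn, card_product, card_range, card_range]
  intro s hs t ht h
  rw [mem_coe, mem_product, mem_range, mem_range] at hs ht
  have h1 := coord_unique (a := a) hb hco (i := s.1) (i' := t.1) (j := s.2) (j' := t.2)
    (by omega) (by omega) h
  ext
  · exact_mod_cast h1.1
  · exact_mod_cast h1.2

theorem ch_a_Rect {a b p q : ℕ} : ch (a : ℤ) (Rect a b p q) ≤ q := by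
  unfold ch
  have h : ((Rect a b p q).filter (fun x => x + (a : ℤ) ∉ Rect a b p q)) ⊆
      (range q).image (fun j : ℕ => ((p - 1 : ℕ) : ℤ) * a + (j : ℤ) * b) := by
    intro x hx
    rw [mem_filter] at hx
    obtain ⟨hx1, hx2⟩ := hx
    obtain ⟨i, j, hi, hj, rfl⟩ := mem_Rect.1 hx1
    rw [mem_image]
    refine ⟨j, by rwa [mem_range], ?_⟩
    have : p - 1 = i := by
      by_contra hc
      apply hx2
      rw [mem_Rect]
      exact ⟨i + 1, j, by omega, hj, by push_cast; ring⟩
    rw [this]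
  refine le_trans (card_le_card h) (le_trans card_image_le ?_)
  rw [card_range]

theorem ch_b_Rect {a b p q : ℕ} : ch (b : ℤ) (Rect a b p q) ≤ p := by
  unfold ch
  have h : ((Rect a b p q).filter (fun x => x + (b : ℤ) ∉ Rect a b p q)) ⊆
      (range p).image (fun i : ℕ => (i : ℤ) * a + ((q - 1 : ℕ) : ℤ) * b) := by
    intro x hx
    rw [mem_filter] at hx
    obtain ⟨hx1, hx2⟩ := hx
    obtain ⟨i, j, hi, hj, rfl⟩ := mem_Rect.1 hx1
    rw [mem_image]
    refine ⟨i, by rwa [mem_range], ?_⟩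
    have : q - 1 = j := by
      by_contra hc
      apply hx2
      rw [mem_Rect]
      exact ⟨i, j + 1, hi, by omega, by push_cast; ring⟩
    rw [this]
  refine le_trans (card_le_card h) (le_trans card_image_le ?_)
  rw [card_range]

end Pool.Agent.Lib.MP_602b76_co_Two
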